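import Pool.Agent.Helper14.TL7.Lists
import Pool.Agent.Helper84.S7.StD1
import Pool.Agent.Helper76.TL.StC7
import Pool.Agent.Helper93.TLE.StB7

/-!
# Project TL (levels `4·7^n`): lower bound

Models: `Pool/Agent/Helper4/TL/StD.lean` (levels `4·5^n`, the same names) and the statements of W7 (`Helper84/S7/StD1.lean`, `Helper4/S7/StD2.lean`, `StD3.lean`). The operator calculus on plane functions of W7 (`tr7`, `op7`, `opL`, `dX`, `dY`, `oW`, `oA`, `oB`, `oD`, `Wd7`, `Lw`, `cS`,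
`M9`, `bb7`; closed theorems `trm`, `low0`, `nfa`, `nf`, `exp7`, `lw1`, `bb`, `opm`, `plA` of `Helper84/S7/D1.lean`) is used unchanged: all signs are coefficients. `F_i(g) = eps(g) (G(g e_i) - G(g 0))`, `e_0 = ∞`, `e_1 = 1/2` (`edgeE7` of `Helper76/TL/StC7.lean`; EDG is `EEdg7`, proved in
`Helper8/TL/M_EDGE7.lean`). `T = (1 1; 0 1)`, `eps T = -1`; `ρ1 = (2 -1; 7 -3)`, `ρ2 = (5 -3; 7 -4)` of order three, `eps = 1`. The Hecke operator of level `(r, s)` is `Tl l (2 * 7^r)`, `l ≠ 2, 7`. There are two operators with SCALAR leading form on both plane functions (modulo the relations):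
`U = T_11 - T_3² - 3` (`3 X Y`) and `V = 5 + T_11 + 5 T_29 + 4 T_37 + 5 T_43 + T_3 (T_13 + 5 T_5)` (`X⁷ Y + X Y⁷`), and four operators at the origin `O_0 = 1`, `O_1 = T_3 + 1`, `O_2 = T_5 + 4 T_3`, `O_3 = 3 + 2 T_11 + T_13 + T_17 + 5 T_19 + T_3 T_5`; no torus projectors are needed.
-/

set_option autoImplicit false

namespace Pool.Agent.Helper14.TL7

open Pool.Agent.Helper14.CV (Homog EqC act Tl StFar StFex)
open Pool.Agent.Helper28.WK (Tw evw)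
open Pool.Agent.Helper4.TL (eps OkE SymE evLE)
open Pool.Agent.Helper4.S7 (Tm mulL sclL Gd mmL idL)
open Pool.Agent.Helper76.S7 (Pl7 rY7 edge7 S7PlA S7PlU)
open Pool.Agent.Helper76.TL7 (edgeE7 EEdg7)
open Pool.Agent.Helper84.S7
open Pool.Agent.Helper93.TLE (DDE ddE7 LBE SEHk)

/-! ### Plane functions -/

/-- TRE (from EDG, PLA). Values on translated paths: for `γ = (a b; 7c d)` of determinant one the path from `γ v` to `γ u` at the point `p` is `eps(γ)` times the path from `v` to `u` at `p γ` (if `g` has coordinates `p` then `g γ` has coordinates `p γ`; `eps(g) = eps(g γ) eps(γ)`).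
Models: TTre of `Helper4/TL/StD.lean` and `Helper84/S7/M_Tre.lean`. -/
def TTre : Prop := ∀ (R : Type) (_ : AddCommGroup R) (r s : ℕ) (G : ℤ → ℤ → R), SymE 7 r (s + 1) G →
  ∀ (a b c d u1 u2 v1 v2 : ℤ), a * d - 7 * b * c = 1 → (u1 ≠ 0 ∨ u2 ≠ 0) → (v1 ≠ 0 ∨ v2 ≠ 0) →
  ∀ (x : ZMod (7 ^ r)) (y : ZMod (7 ^ s)),
  edgeE7 0 (a * u1 + b * u2) (7 * c * u1 + d * u2) (a * v1 + b * v2) (7 * c * v1 + d * v2) G x y =
    eps a b (7 * c) d • tr7 a b c d (edgeE7 0 u1 u2 v1 v2 G) x y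

/-- The two plane functions of a symbol: `F0(g) = eps(g) (G(g∞) - G(g0))`, `F1(g) = eps(g) (G(g½) - G(g0))`. -/
noncomputable def pfE {R : Type} [AddCommGroup R] {q q' : ℕ} (G : ℤ → ℤ → R) (i : Fin 2) :
    ZMod q → ZMod q' → R := fun x y => edgeE7 0 1 (e7 i) 0 1 G x y

/-- The relations between the two functions: `F1 + F1∘ρ1 + F1∘ρ1² = 0` and, for `k = F0 + F0∘T - F1` (path from `1/2` to `1`), `k + k∘ρ2 + k∘ρ2² = 0`. -/
def RelE {R : Type} [AddCommGroup R] {q q' : ℕ} (F : Fin 2 → ZMod q → ZMod q' → R) : Prop :=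
  (∀ x y, F 1 x y + tr7 2 (-1) 1 (-3) (F 1) x y + tr7 3 (-1) 1 (-2) (F 1) x y = 0) ∧
  ∀ x y, F 0 x y + tr7 1 1 0 1 (F 0) x y - F 1 x y +
    (tr7 5 (-3) 1 (-4) (F 0) x y + tr7 5 2 1 3 (F 0) x y - tr7 5 (-3) 1 (-4) (F 1) x y) +
    (tr7 4 (-3) 1 (-5) (F 0) x y + tr7 4 1 1 2 (F 0) x y - tr7 4 (-3) 1 (-5) (F 1) x y) = 0

/-- REL (from TRE). The plane functions of a symbol satisfy the relations. Exactly as S7Rel (`Helper25/S7/M_Rel.lean`) with signs: `eps(ρ1) = eps(3 -1; 7 -2) = eps(ρ2) = eps(4 -3; 7 -5) = 1`, `eps(T) = -1`, so `F0(p) + F0(pT) = eps(g) (G(g1) - G(g0))` and `k(p) = eps(g) (G(g1) - G(g½))`; `ρ2 T = (5 2; 7 3)`, `ρ2² T = (4 1; 7 2)`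
have `eps = -1`. -/
def TRel : Prop := ∀ (R : Type) (_ : AddCommGroup R) (r s : ℕ) (G : ℤ → ℤ → R),
  SymE 7 r (s + 1) G → RelE (fun i => (pfE G i : ZMod (7 ^ r) → ZMod (7 ^ s) → R))

/-- EX (from TRM, PLA, EDG, FEX, FAR of CV). Every solution of the relations comes from a symbol. Proof as S7Ex with signs. For `g = (a b; c d)` in `SL₂(ℤ)` define `E g` (the future value `G(g∞) - G(g0)`) by the class `(c : d)` modulo `7`; for `γ = (a b; 7c' d)` let `p(γ) = (b/a, c'/d)`; `g S = (b -a; d -c)`; `k = F0 + F0∘T - F1`.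
`7 ∣ c`: `E g = eps(g) F0(p(g))`. `7 ∣ d`: `E g = -E(gS)`. `c ≡ d`: `E g = eps(γ) (F0(p(γ)) + F0(p(γT)))`, `γ = g (1 0; -1 1)` (path `γ{0,1}`). `c ≡ -d`: `E g = -E(gS)`. `c ≡ 2d`: `E g = eps(γ) F1(p(γ))`, `γ = g (1 0; -2 1)` (path `γ{0,½}`). `c ≡ 3d`: `E g = -E(gS)`.
`c ≡ 4d`: `E g = eps(γ) k(p(γ))`, `γ = g (2 -1; -1 1)` (path `γ{½,1}`). `c ≡ 5d`: `E g = -E(gS)`. So `E(gS) = -E g` without any relation (`E(-g) = E g`). Triangle relation of FEX (`E g = E (g (1 1; 0 1)) + E (g (1 0; 1 1))`), `t = c/d` modulo `7`: `t = 0`: `eps(γ) F0(γ) = eps(γT) F0(γT) + eps(γ) (F0(γ) + F0(γT))`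
(`eps(γT) = -eps(γ)`). `t = 1`: `F0(γ) + F0(γT) = k(γ) + F1(γ)` (triangle `γ{0,½,1}`). `t = 2`: first relation (`γ' = γρ1²`, `γρ1`, `eps(ρ1) = 1`). `t = 3`, `t = 5`: again the triangle `γ{0,½,1}`. `t = 4`: second relation. `t = 6`, `t = ∞`: as `t = 0`. `E(γ' g) = eps(γ') E g` for `γ'` in the group of the symbol, so
`G∘γ' - eps(γ') G` has equal values at `g∞`, `g0` for all `g`: constant by FAR. `pfE G i = F i`: evaluate at the standard matrix, `eps² = 1`. Models: `Helper9/S7/M_Ex.lean` and the module for `TEx` of `Helper4/TL/StD.lean`. -/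
def TEx : Prop := ∀ (R : Type) (_ : AddCommGroup R) (r s : ℕ)
  (F : Fin 2 → ZMod (7 ^ r) → ZMod (7 ^ s) → R), RelE F →
  ∃ G : ℤ → ℤ → R, SymE 7 r (s + 1) G ∧ ∀ i, pfE G i = F i

/-- UNI (from EDG/TRE, FAR). A symbol with `F0 = F1 = 0` is constant (as S7Uni: a sign times a difference vanishes iff the difference vanishes). Model: `Helper10/S7/M_Uni.lean`. -/
def TUni : Prop := ∀ (R : Type) (_ : AddCommGroup R) (r s : ℕ) (G : ℤ → ℤ → R),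
  SymE 7 r (s + 1) G → (∀ i, (pfE G i : ZMod (7 ^ r) → ZMod (7 ^ s) → R) = 0) → EqC G 0

/-- HKB. Hecke sums for balanced levels `(r, s)`, from SEHk and SEHkS (`Helper93/TLE/StB.lean`). Model: the module for `THkB` of `Helper4/TL/StD.lean`. -/
def THkB : Prop := ∀ (R : Type) (_ : AddCommGroup R) (r s l : ℕ) (G : ℤ → ℤ → R), l.Prime →
  l ≠ 7 → l ≠ 2 → SymE 7 r s G → SymE 7 r s (Tl l (2 * 7 ^ r) G) ∧
  ∀ δ : Fin (l + 1) → Matrix (Fin 2) (Fin 2) ℤ,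
  (∀ P, (δ P).det = l) → (∀ P, (7 : ℤ) ^ r ∣ δ P 0 1) → (∀ P, (7 : ℤ) ^ s ∣ δ P 1 0) →
  (∀ P P', P ≠ P' → ¬ ∀ i j, (l : ℤ) ∣ (δ P * (δ P').adjugate) i j) →
  EqC (fun p q => ∑ P, eps (δ P 0 0) (δ P 0 1) (δ P 1 0) (δ P 1 1) •
    G (δ P 0 0 * p + δ P 0 1 * q) (δ P 1 0 * p + δ P 1 1 * q)) (Tl l (2 * 7 ^ r) G)

/-- HKF (from HKB, EDG, PLA). Hecke formula on the plane for the path from `v` to `u`; `J` is a complete system of residues modulo `l`. Model: the module for `THkF` of `Helper4/TL/StD.lean`. -/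
def THkF : Prop := ∀ (R : Type) (_ : AddCommGroup R) (r s l : ℕ) (G : ℤ → ℤ → R) (J : Finset ℤ),
  l.Prime → l ≠ 7 → l ≠ 2 → SymE 7 r (s + 1) G → J.card = l →
  (∀ j ∈ J, ∀ j' ∈ J, (l : ℤ) ∣ j - j' → j = j') →
  ∀ (u1 u2 v1 v2 : ℤ), (u1 ≠ 0 ∨ u2 ≠ 0) → (v1 ≠ 0 ∨ v2 ≠ 0) → ∀ (x : ZMod (7 ^ r)) (y : ZMod (7 ^ s)),
  edgeE7 0 u1 u2 v1 v2 (Tl l (2 * 7 ^ r) G) x y =
    tr7 1 0 0 l (edgeE7 0 (l * u1) u2 (l * v1) v2 G) x y +
    ∑ j ∈ J, eps 1 j 0 l • tr7 l (-j) 0 1 (edgeE7 0 (u1 + j * u2) (l * u2) (v1 + j * v2) (l * v2) G) x y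

/-- HK `l T` (from HKF, TRE, TRM): the lists `T` are the rows of `T_l`. With `Chk 7 l J 0 2 1 (e7 i) 0 1 (T i 0) (T i 1)` of `Helper93/TLE/Gen.lean`, `J` the even residues. -/
def THk (l : ℕ) (T : Fin 2 → Fin 2 → List Tm) : Prop := ∀ (r s : ℕ) (G : ℤ → ℤ → ZMod 7), SymE 7 r (s + 1) G → ∀ i : Fin 2,
  (pfE (Tl l (2 * 7 ^ r) G) i : Fn7 (7 ^ r) (7 ^ s)) = ∑ f : Fin 2, opL (T i f) (pfE G f)

/-- OPM (from TRM, `S7Opm`). The relations as lists. Model: the last part of `Helper57/S7/M_Opm.lean`. -/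
def TOpm : Prop := ∀ (r s : ℕ) (F : Fin 2 → Fn7 (7 ^ r) (7 ^ s)),
  RelE F ↔ ∀ ρ : Fin 2, ∑ f : Fin 2, opL (relE ρ f) (F f) = 0

/-! ### The operators on symbols and the words -/

section

variable {R : Type} [AddCommGroup R]

/-- `U = T_11 - T_3² - 3`. -/
def UoE (m : ℤ) (G : ℤ → ℤ → R) : ℤ → ℤ → R := Tl 11 m G - Tl 3 m (Tl 3 m G) - (3 : ℤ) • G

/-- `V = 5 + T_11 + 5 T_29 + 4 T_37 + 5 T_43 + T_3 (T_13 + 5 T_5)`. -/
def VoE (m : ℤ) (G : ℤ → ℤ → R) : ℤ → ℤ → R :=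
  (5 : ℤ) • G + Tl 11 m G + (5 : ℤ) • Tl 29 m G + (4 : ℤ) • Tl 37 m G + (5 : ℤ) • Tl 43 m G +
    Tl 3 m (Tl 13 m G + (5 : ℤ) • Tl 5 m G)

/-- The operators at the origin: `O_0 = 1`, `O_1 = T_3 + 1`, `O_2 = T_5 + 4 T_3`, `O_3 = 3 + 2 T_11 + T_13 + T_17 + 5 T_19 + T_3 T_5`. -/
def OoE (c : ℕ) (m : ℤ) (G : ℤ → ℤ → R) : ℤ → ℤ → R :=
  if c = 0 then G
  else if c = 1 then Tl 3 m G + G
  else if c = 2 then Tl 5 m G + (4 : ℤ) • Tl 3 m G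
  else (3 : ℤ) • G + (2 : ℤ) • Tl 11 m G + Tl 13 m G + Tl 17 m G + (5 : ℤ) • Tl 19 m G + Tl 3 m (Tl 5 m G)

/-- The value of the symbol of `G` at the word `O_c U^i V^j` of `{0, ∞}`. -/
def evE (m : ℤ) (G : ℤ → ℤ → R) (c i j : ℕ) : R :=
  OoE c m ((UoE m)^[i] ((VoE m)^[j] G)) 1 0 - OoE c m ((UoE m)^[i] ((VoE m)^[j] G)) 0 1

end

/-- The exponents of the leading monomial `X^(aaE c + i + 7j) Y^(abE c + i + j)` of the word `(c, i, j)`: `(1, 0)`, `(2, 0)`, `(4, 0)`, `(6, 1)`. -/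
def aaE (c : ℕ) : ℕ := if c = 0 then 1 else if c = 1 then 2 else if c = 2 then 4 else 6

/-- The exponent of `Y`. -/
def abE (c : ℕ) : ℕ := if c ≤ 2 then 0 else 1

/-- The degree of the word. -/
def dgE (c i j : ℕ) : ℕ := aaE c + abE c + 2 * i + 8 * j

/-- The second coordinate of the order (`(dgE, rhE)`, lexicographic): the exponent of `Y`. `dgE - 2 rhE` is `1 + 6j`, `2 + 6j`, `4 + 6j`, `5 + 6j` for `c = 0, 1, 2, 3`, so `(dgE, rhE)` determines `(c, i, j)`. -/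
def rhE (c i j : ℕ) : ℕ := abE c + i + j

/-- The degree of the functional `c` at the origin: `1, 2, 4, 7`. -/
def nOE (c : ℕ) : ℕ := if c = 0 then 1 else if c = 1 then 2 else if c = 2 then 4 else 7

/-- The coefficient of `X^(n - i) Y^i`, `n = nOE c`, of the functional `c`: `X + 4Y`, `4X² + 4Y²`, `2X⁴ + 2X³Y + 2XY³ + 2Y⁴`, `2X⁷ + 5X⁶Y + 3XY⁶ + Y⁷`. -/
def qOE (c i : ℕ) : ℤ :=
  (([[1, 4], [4, 0, 4], [2, 2, 0, 2, 2], [2, 5, 0, 0, 0, 0, 3, 1]] : List (List ℤ)).getD c []).getD i 0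

/-- The functional `c` as an operator (the value at the origin is taken). -/
def MoE (c : ℕ) {q q' : ℕ} : Module.End (ZMod 7) (Fn7 q q') :=
  ∑ i ∈ Finset.range (nOE c + 1), ((qOE c i : ℤ) : ZMod 7) • (dX ^ (nOE c - i) * dY ^ i)

/-- The leading operator of `U`. -/
def QoE {q q' : ℕ} : Module.End (ZMod 7) (Fn7 q q') := (3 : ZMod 7) • (dX * dY)

/-- The leading operator of `V`. -/
def LoE {q q' : ℕ} : Module.End (ZMod 7) (Fn7 q q') := dX ^ 7 * dY + dX * dY ^ 7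

/-! ### Certificates (finite computations) -/

/-- The sum over the torus classes. -/
def cO (L : List Tm) (i k j : ℕ) : ℤ := ∑ w : Fin 6, cS L w i k j

/-- CEG. All terms are good (they are prime to `7`). -/
def TCeG : Prop :=
  (∀ i f : Fin 2, (∀ t ∈ T3L i f, Gd t) ∧ (∀ t ∈ T5L i f, Gd t) ∧ (∀ t ∈ T11L i f, Gd t) ∧ (∀ t ∈ T13L i f, Gd t) ∧
    (∀ t ∈ T17L i f, Gd t) ∧ (∀ t ∈ T19L i f, Gd t) ∧ (∀ t ∈ T29L i f, Gd t) ∧ (∀ t ∈ T37L i f, Gd t) ∧ (∀ t ∈ T43L i f, Gd t) ∧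
    (∀ t ∈ relE i f, Gd t) ∧ (∀ t ∈ MUE i f, Gd t) ∧ (∀ t ∈ MVE i f, Gd t)) ∧
  ∀ (c : Fin 4) (f : Fin 2), ∀ t ∈ MOE c f, Gd t

/-- CEU. The coefficients of `U` of weight at most `2`: `3 (oB-1)(oA-1)` (`w = 0`) on the diagonal. Lists of 95, 48, 144, 70 terms. -/
def TCeU : Prop := ∀ i f : Fin 2, ∀ w : Fin 6, ∀ t ∈ M9, t.1 + 6 * t.2.1 + t.2.2 ≤ 2 →
  (7 : ℤ) ∣ cS (BUE i f) w t.1 t.2.1 t.2.2 - (if i = f ∧ w = 0 ∧ t = (1, 0, 1) then 3 else 0)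

/-- CEV `i f`. The coefficients of `V` of weight at most `8`: `(oB-1)(oA-1)^7 + (oB-1)^7(oA-1)` (`w = 0`) on the diagonal. Lists of about 1035, 596, 1330, 769 terms. Model: `Pool/Agent/Helper25/S7/M_Cert3.lean` (one pass over the list, Kronecker packing). -/
def TCeV (i f : Fin 2) : Prop := ∀ w : Fin 6, ∀ t ∈ M9,
  (7 : ℤ) ∣ cS (BVE i f) w t.1 t.2.1 t.2.2 - (if i = f ∧ w = 0 ∧ (t = (1, 0, 7) ∨ t = (7, 0, 1)) then 1 else 0)

/-- CEO. The functionals at the origin: the sums over the classes. Terms with `k = 1` only if `i ≠ 0` (the terms with `i = 0`, `k = 1` have value zero at the origin). On `F1` only weights less than `nOE c` are needed. -/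
def TCeO : Prop := ∀ c : Fin 4, ∀ t ∈ M9,
  (t.2.1 = 0 ∨ t.1 ≠ 0) →
  (t.1 + 6 * t.2.1 + t.2.2 ≤ nOE c.val → (7 : ℤ) ∣ cO (BOE c 0) t.1 t.2.1 t.2.2 -
    (if t.2.1 = 0 ∧ t.1 + t.2.2 = nOE c.val then qOE c.val t.1 else 0)) ∧
  (t.1 + 6 * t.2.1 + t.2.2 < nOE c.val → (7 : ℤ) ∣ cO (BOE c 1) t.1 t.2.1 t.2.2)

/-! ### Leading forms -/

/-- LDG (from TRM, LOW0, NFA, EXP). One list `L` whose coefficients of weight less than `n ≤ 8` vanish modulo 7 and whose coefficients of weight `n` are `q i` for `(oB-1)^i (oA-1)^(n-i)`, `w = 0`, and `0` otherwise. By EXP `opL L` is the sum of the `cS L w i k j • oW w * (oB-1)^i * (oD-1)^k * (oA-1)^j` over `M9` modulo `Lw 9`;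
such a term lowers by `i + 6k + j` (NFA), so the terms of weight more than `n` lower by `n + 1`; `oW 0 = 1` (TRM), `oB - 1 ≡ dY`, `oA - 1 ≡ dX` modulo `Lw 5`, `dX`, `dY` commute. Model: `Helper7/S7/M_Ldg.lean`. -/
def TLdg : Prop := ∀ (r s : ℕ) (L : List Tm) (n : ℕ) (q : ℕ → ℤ), n ≤ 8 → (∀ t ∈ L, Gd t) →
  (∀ w : Fin 6, ∀ t ∈ M9, t.1 + 6 * t.2.1 + t.2.2 < n → (7 : ℤ) ∣ cS L w t.1 t.2.1 t.2.2) →
  (∀ w : Fin 6, ∀ t ∈ M9, t.1 + 6 * t.2.1 + t.2.2 = n →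
    (7 : ℤ) ∣ cS L w t.1 t.2.1 t.2.2 - (if w = 0 ∧ t.2.1 = 0 then q t.1 else 0)) →
  Lw ((opL L : Module.End (ZMod 7) (Fn7 (7 ^ r) (7 ^ s))) - ∑ i ∈ Finset.range (n + 1), ((q i : ℤ) : ZMod 7) •
    (dX ^ (n - i) * dY ^ i : Module.End (ZMod 7) (Fn7 (7 ^ r) (7 ^ s)))) ((n : ℤ) + 1)

/-- OMG (from TRM, LOW0, NFA, EXP). The value at the origin of one list on functions of degree at most `n ≤ 8`. By EXP `opL L F` is the sum over `M9` of `cS L w i k j • oW w * (oB-1)^i * (oD-1)^k * (oA-1)^j` on `F`, modulo `Wd7 (n - 9) = 0`. `(oW w H)(0,0) = H(0,0)`, `(oD H)(0,0) = H(0,0)` (the origin is fixed), so the value at the origin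
is the sum of the `cO L i k j` times the value of `(oB-1)^i (oD-1)^k (oA-1)^j F`; the terms of weight more than `n` vanish; the terms with `i = 0`, `k = 1` vanish (`((oD - 1) H)(0,0) = 0`); for `i + j = n` the function `(oB-1)^i (oA-1)^j F` is constant and equal to `dX^j dY^i F` (modulo `Wd7 (-1) = 0`). -/
def TOmg : Prop := ∀ (r s : ℕ) (L : List Tm) (n : ℕ) (q : ℕ → ℤ), n ≤ 8 → (∀ t ∈ L, Gd t) →
  (∀ t ∈ M9, (t.2.1 = 0 ∨ t.1 ≠ 0) → t.1 + 6 * t.2.1 + t.2.2 ≤ n →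
    (7 : ℤ) ∣ cO L t.1 t.2.1 t.2.2 - (if t.2.1 = 0 ∧ t.1 + t.2.2 = n then q t.1 else 0)) →
  ∀ F : Fn7 (7 ^ r) (7 ^ s), F ∈ Wd7 (n : ℤ) → (opL L F) 0 0 = ∑ i ∈ Finset.range (n + 1), ((q i : ℤ) : ZMod 7) *
    ((dX ^ (n - i) * dY ^ i : Module.End (ZMod 7) (Fn7 (7 ^ r) (7 ^ s))) F) 0 0

/-- LDU (from OPM, LOW0, LDG, CEG, CEU; `S7Opm` for products and multiples of lists). Leading forms of `U`: modulo the relations the rows are the lists `BUE` (`∑_f opL (ULE i f) (F f) = ∑_f opL (BUE i f) (F f)` as `∑_f opL (mulL M (relE ρ f)) (F f) = opL M (∑_f opL (relE ρ f) (F f)) = 0`), and LDG with `n = 2`,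
`q = (0, 3, 0)` on the diagonal, `q = 0` off the diagonal. (`d` may be any integer.) -/
def TLdU : Prop := ∀ (r s : ℕ) (d : ℤ) (F : Fin 2 → Fn7 (7 ^ r) (7 ^ s)), RelE F → F 0 ∈ Wd7 d → F 1 ∈ Wd7 d →
  ∀ i : Fin 2, (∑ f : Fin 2, opL (ULE i f) (F f)) - QoE (F i) ∈ Wd7 (d - 3)

/-- LDV (from OPM, LOW0, LDG, CEG, CEV). Leading forms of `V`: as LDU with `n = 8`, `q 1 = q 7 = 1`. -/
def TLdV : Prop := ∀ (r s : ℕ) (d : ℤ) (F : Fin 2 → Fn7 (7 ^ r) (7 ^ s)), RelE F → F 0 ∈ Wd7 d → F 1 ∈ Wd7 d →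
  ∀ i : Fin 2, (∑ f : Fin 2, opL (VLE i f) (F f)) - LoE (F i) ∈ Wd7 (d - 9)

/-- OM (from OPM, LOW0, OMG, CEG, CEO). The value of `O_c` at the origin, for `F0` of degree at most `n = nOE c` and `F1` of degree at most `n - 1`: modulo the relations the first row is `BOE c`; OMG with `n`, `q = qOE c` for `F0` and with `n - 1`, `q = 0` for `F1`. -/
def TOm : Prop := ∀ (r s : ℕ) (c : Fin 4) (F : Fin 2 → Fn7 (7 ^ r) (7 ^ s)), RelE F → F 0 ∈ Wd7 (nOE c.val : ℤ) →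
  F 1 ∈ Wd7 ((nOE c.val : ℤ) - 1) →
  (∑ f : Fin 2, opL (OLE c f) (F f)) 0 0 = (MoE c.val (F 0)) 0 0

/-- LED (from TRM, LOW0, NFA, LW1, BB). Solutions of the relations with `F1 = 0` and given leading form of `F0`, `al - be` not divisible by three. Let `β = op7 5 (-3) 1 (-4)` (order three), `N = 7^(r+s)` (odd; `T^N = op7 1 N 0 1` acts trivially, as `7^r ∣ N`, `7^s ∣ N`), `m = μ • bb7 al be` and
`F0 = 4 ∑_{i < N} (-1)^i T^i (m - β m)` (`T = op7 1 1 0 1 = oA`), so `F0 + T F0 = 4 (1 + T^N) (m - β m) = 8 (m - β m) = m - β m = k`. `RelE ![F0, 0]`: `(1 + β + β²)(1 - β) = 1 - β³ = 0` (TRM: `ρ2³ = -1`; `β T = op7 5 2 1 3`, `β² = op7 4 (-3) 1 (-5)`, `β² T = op7 4 1 1 2`). Degrees: `m` has degree at most `al + be`, `β ≡ oW 4`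
modulo `Lw 1` (LW1, `7 ∣ -4 + 19 · 5`), and by NFA (5) and BB `oW 4 (bb7 al be) ≡ 2^(al + 5 be) bb7 al be = 2^(al - be) bb7 al be` modulo degree `al + be - 1` (`2³ = 1`). `2 F0 = (F0 + T F0) - (T - 1) F0` and `T - 1` lowers by `1`, `F0` has degree at most `al + be`: `2 F0 ≡ m - β m ≡ (1 - 2^(al - be)) μ bb7 al be`, so
`μ = 2 / (1 - 2^(al - be))` (`μ = 5` for `al - be ≡ 1`, `μ = 4` for `al - be ≡ 2` modulo three). Model: LED of `Helper4/TL/StD.lean`. -/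
def TLed : Prop := ∀ (r s al be : ℕ), al < 7 ^ r → be < 7 ^ s → ¬ (3 : ℤ) ∣ (al : ℤ) - be →
  ∃ F0 : Fn7 (7 ^ r) (7 ^ s), RelE ![F0, 0] ∧ F0 - bb7 al be ∈ Wd7 ((al : ℤ) + be - 1)

/-- STP (from HKB, all HK, OPM of W7, PLA; `SymE.add` etc.). The operators preserve symbols, and their plane functions are given by the lists (`opL (mmL ..)`: products of rows). The value of `F0` at the point `(0,0)`: the standard matrix is `1`, `eps = 1`. Model: `Helper33/S7/M_Stp.lean`. -/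
def TStp : Prop := ∀ (r s : ℕ) (G : ℤ → ℤ → ZMod 7), SymE 7 r (s + 1) G →
  (SymE 7 r (s + 1) (UoE (2 * 7 ^ r) G) ∧ ∀ i : Fin 2,
    (pfE (UoE (2 * 7 ^ r) G) i : Fn7 (7 ^ r) (7 ^ s)) = ∑ f : Fin 2, opL (ULE i f) (pfE G f)) ∧
  (SymE 7 r (s + 1) (VoE (2 * 7 ^ r) G) ∧ ∀ i : Fin 2,
    (pfE (VoE (2 * 7 ^ r) G) i : Fn7 (7 ^ r) (7 ^ s)) = ∑ f : Fin 2, opL (VLE i f) (pfE G f)) ∧
  (∀ c : Fin 4, (pfE (OoE c.val (2 * 7 ^ r) G) 0 : Fn7 (7 ^ r) (7 ^ s)) = ∑ f : Fin 2, opL (OLE c f) (pfE G f)) ∧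
  ∀ H : ℤ → ℤ → ZMod 7, (pfE H 0 : Fn7 (7 ^ r) (7 ^ s)) 0 0 = H 1 0 - H 0 1

/-- ITR (from REL, STP, LOW0, LDU, LDV, OM). Iteration, `m = 2 * 7^r`, for a symbol `G` modulo 7 of level `(r, s+1)` with `F0` of degree at most `d` and `F1` of degree at most `d - 1`. By LDU, LDV, REL the functions of `U G` have degrees `d - 2`, `d - 3` and `F0(U G) ≡ QoE F0(G)` modulo `Wd7 (d - 3)`; for `V`: `d - 8`, `d - 9`,
`F0(V G) ≡ LoE F0(G)` modulo `Wd7 (d - 9)`. So the functions of `U^i V^j G` have degrees `d' = d - 2i - 8j`, `d' - 1`, and `F0 ≡ QoE^i LoE^j F0(G)` modulo `Wd7 (d' - 1)`. OM for `d' ≤ nOE c` (`MoE c` kills degree `nOE c - 1`; `nOE c = aaE c + abE c`). Model: ITR of `Helper4/TL/StD.lean`. -/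
def TItr : Prop := ∀ (r s : ℕ) (G : ℤ → ℤ → ZMod 7) (d : ℕ), SymE 7 r (s + 1) G →
  (pfE G 0 : Fn7 (7 ^ r) (7 ^ s)) ∈ Wd7 (d : ℤ) → (pfE G 1 : Fn7 (7 ^ r) (7 ^ s)) ∈ Wd7 ((d : ℤ) - 1) →
  ∀ c i j : ℕ, c ≤ 3 →
  (d < dgE c i j → evE (2 * 7 ^ r) G c i j = 0) ∧
  (dgE c i j = d → evE (2 * 7 ^ r) G c i j =
    ((MoE c * QoE ^ i * LoE ^ j : Module.End (ZMod 7) (Fn7 (7 ^ r) (7 ^ s))) (pfE G 0)) 0 0)

/-- TRF (from LOW0, BB). The forms. `MoE c * QoE^i * LoE^j` is a form of degree `dgE c i j` in the commuting operators `dX`, `dY`, so it lowers by `dgE c i j`, and the value of a monomial `dX^p dY^q`, `p + q = A + B`, on `bb7 A B` at the origin is `1` if `(p, q) = (A, B)` and `0` otherwise. The form is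
`(q_0 X^n + q_1 X^(n-1) Y + Y² ...) (3XY)^i (X⁷Y + XY⁷)^j`, so its coefficient at `X^A Y^B` is `0` for `B < i + j`, `3^i q_0` for `B = i + j` and `3^i q_1` for `B = i + j + 1` (`n = nOE c`, `(X⁷Y + XY⁷)^j = X^(7j) Y^j + Y^(j+6) ...`). By induction on `i`, `j` in the form `P = c0 X^a Y^m + c1 X^(a-1) Y^(m+1) + dY^(m+2) P1` as operators. -/
def TTrf : Prop := ∀ (r s : ℕ),
  (∀ c i j : ℕ, c ≤ 3 → Lw (MoE c * QoE ^ i * LoE ^ j : Module.End (ZMod 7) (Fn7 (7 ^ r) (7 ^ s))) (dgE c i j)) ∧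
  ∀ c i j A B : ℕ, c ≤ 3 → A < 7 ^ r → B < 7 ^ s → A + B = dgE c i j →
    (B < i + j → ((MoE c * QoE ^ i * LoE ^ j : Module.End (ZMod 7) (Fn7 (7 ^ r) (7 ^ s))) (bb7 A B)) 0 0 = 0) ∧
    (B = i + j → ((MoE c * QoE ^ i * LoE ^ j : Module.End (ZMod 7) (Fn7 (7 ^ r) (7 ^ s))) (bb7 A B)) 0 0 =
      3 ^ i * ((qOE c 0 : ℤ) : ZMod 7)) ∧
    (B = i + j + 1 → ((MoE c * QoE ^ i * LoE ^ j : Module.End (ZMod 7) (Fn7 (7 ^ r) (7 ^ s))) (bb7 A B)) 0 0 =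
      3 ^ i * ((qOE c 1 : ℤ) : ZMod 7))

/-- TRI (from LOW0, BB, LED, EX, ITR, TRF). Triangular system of symbols modulo 7. For `(c, i, j)` let `A = aaE c + i + 7j`, `B = abE c + i + j`, `d = A + B = dgE c i j` (`A - B ≡ 1, 2, 4, 5` modulo `6`, not divisible by three). Take `F = ![F0, 0]` of LED for `(A, B)`; for `c = 0` and `B + 1 < 7^s` ADD the solution of LED for
`(A - 1, B + 1)` (`A ≥ 1`, class `-1`; `RelE` is linear), and the symbol `G` of EX. By ITR `evE G c' i' j' = 0` if `dgE c' i' j' > d`; for `dgE c' i' j' = d` it is the value of TRF on `bb7 A B` (plus that on `bb7 (A-1) (B+1)` for `c = 0`; terms of lower degree are killed, TRF (1)). Diagonal: `3^i (1 + 4)` (or `3^i` at the boundary),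
`3^i 4`, `3^i 2`, `3^i 5` (`B = i + j + 1` for `c = 3`). Let `dgE c' i' j' = d` and `rhE c' i' j' > B = rhE c i j`. `c' = c`: `(i' + j') - (i + j) = 3 (j - j') ≥ 3`: zero. The parity of `dgE` is odd for `c = 0, 3` and even for `c = 1, 2`. `{c, c'} = {1, 2}`: `i' + j' > B`: zero. `c = 3`, `c' = 0`: `i' + j' > B`: zero. `c = 0`, `c' = 3`:
`3 + i' + 4j' = i + 4j`, so `(i' + j') - (i + j) = 3 (j - j') - 3` is divisible by three and at least `0`: if it is at least `3` the value is zero, if it is `0` then `B + 1 = rhE c' i' j' < 7^s` (index condition) and the value is `3^i' (2 + 5) = 0`. -/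
def TTri : Prop := ∀ (r s c i j : ℕ), c ≤ 3 → aaE c + i + 7 * j < 7 ^ r → abE c + i + j < 7 ^ s →
  ∃ G : ℤ → ℤ → ZMod 7, SymE 7 r (s + 1) G ∧ evE (2 * 7 ^ r) G c i j ≠ 0 ∧
    ∀ c' i' j' : ℕ, c' ≤ 3 → aaE c' + i' + 7 * j' < 7 ^ r → abE c' + i' + j' < 7 ^ s → evE (2 * 7 ^ r) G c' i' j' ≠ 0 →
      (dgE c' i' j' < dgE c i j ∨ (dgE c' i' j' = dgE c i j ∧ rhE c' i' j' ≤ rhE c i j))

/-! ### Integral symbols and the lower bound -/

/-- LIFP (from TRM). Lifting solutions of the relations to integers; `α = op7 2 (-1) 1 (-3)`, `β = op7 5 (-3) 1 (-4)` (order three), `N = 7^(r+s)` as in LED, all translations also for integral functions. Modulo 7 let `k = f0 + T f0 - f1`, `a = 5 (2 f1 + α f1)`, `b = 5 (2 k + β k)`, so `a - α a = f1`, `b - β b = k` (`(1 - α)(2 + α) = 3 - (1 + α + α²)`,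
`15 = 1`). Let `a'`, `b'` be integral lifts of `4a`, `4b`, and `h = (a' - α a') + (b' - β b')`, `F1 = 2 (a' - α a')`, `K = 2 (b' - β b')`, `F0 = ∑_{i < N} (-1)^i T^i h`; then `F0 + T F0 = (1 + T^N) h = 2h = F1 + K`, so `RelE F` over `ℤ` (`F1 + α F1 + α² F1 = 2 (a' - α³ a') = 0`). Modulo 7: `F1 ≡ 8 f1 = f1`, `K ≡ k`,
`F0 + T F0 ≡ f0 + T f0`, and `1 + T` is injective modulo 7 (`∑_{i<N} (-1)^i T^i (1 + T) = 1 + T^N = 2`). No connectedness argument is needed. Models: `Helper55/S7/M_Lifp.lean`, LIFP of `Helper4/TL/StD.lean`. -/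
def TLifp : Prop := ∀ (r s : ℕ) (f : Fin 2 → Fn7 (7 ^ r) (7 ^ s)), RelE f →
  ∃ F : Fin 2 → ZMod (7 ^ r) → ZMod (7 ^ s) → ℤ, RelE F ∧
    ∀ i x y, ((F i x y : ℤ) : ZMod 7) = f i x y

/-- LIF (from REL, LIFP, EX, UNI). Lifting symbols: every symbol `g` modulo 7 lifts to an integral symbol `G` with the same `evE` modulo 7 (`evE` commutes with reduction and does not change for `EqC`). Model: LIF of `Helper4/TL/StD.lean`. -/
def TLif : Prop := ∀ (r s : ℕ) (g : ℤ → ℤ → ZMod 7), SymE 7 r (s + 1) g →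
  ∃ G : ℤ → ℤ → ℤ, SymE 7 r (s + 1) G ∧
    ∀ c i j : ℕ, ((evE (2 * 7 ^ r) G c i j : ℤ) : ZMod 7) = evE (2 * 7 ^ r) g c i j

/-- UNB. Back to `Γ₀(7^n)` and to complex values (`Tl l 2 G0 (p,q) = Tl l (2 * 7^r) G (7^r p, q)`; `(a 7^r b; 7^s c d) ≡ (a b; 7^(r+s) c d)` modulo `2`). Model: UNB of `Helper4/TL/StD.lean`. -/
def TUnb : Prop := ∀ (r s : ℕ) (G : ℤ → ℤ → ℤ), SymE 7 r s G →
  SymE 7 0 (r + s) (fun p q => ((G (7 ^ r * p) q : ℤ) : ℂ)) ∧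
    ∀ c i j : ℕ, evE 2 (fun p q => ((G (7 ^ r * p) q : ℤ) : ℂ)) c i j = ((evE (2 * 7 ^ r) G c i j : ℤ) : ℂ)

/-- CNT. Counting the index sets: `DDE 3 ddE7 (2k) = 2t² + t`, `DDE 3 ddE7 (2k+1) = 14t² + t`, `t = 7^(k-1)` (`k ≥ 1`; induction: `3, 15, 105`). First set (`abE c + i + j < t`): the first condition follows from the second; `t(t+1)/2` for `c = 0, 1, 2` and `t(t-1)/2` for `c = 3`. Second set (`i + 7j < 7t - aaE c`): the second condition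
follows from the first; `∑_{j<t} (7t - 7j - e) = 7t(t+1)/2 - e t` for `e = 1, 2, 4, 6`. Model: `Helper36/S7/M_Cnt.lean`. -/
def TCnt : Prop :=
  (∀ k : ℕ, 1 ≤ k → ((Finset.range 4 ×ˢ Finset.range (7 ^ k) ×ˢ Finset.range (7 ^ k)).filter
    fun t : ℕ × ℕ × ℕ => aaE t.1 + t.2.1 + 7 * t.2.2 < 7 ^ k ∧ abE t.1 + t.2.1 + t.2.2 < 7 ^ (k - 1)).card = DDE 3 ddE7 (2 * k)) ∧
  (∀ k : ℕ, 1 ≤ k → ((Finset.range 4 ×ˢ Finset.range (7 ^ k) ×ˢ Finset.range (7 ^ k)).filter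
    fun t : ℕ × ℕ × ℕ => aaE t.1 + t.2.1 + 7 * t.2.2 < 7 ^ k ∧ abE t.1 + t.2.1 + t.2.2 < 7 ^ k).card = DDE 3 ddE7 (2 * k + 1))

/-- LB from TRI, LIF, UNB, CNT. As `S7LBof` and LBof of `Helper4/TL/StD.lean`: for `n = 2k` (`k ≥ 1`) use `(r,s) = (k,k-1)`, for `n = 2k+1` use `(r,s) = (k,k)`. The matrix `evE G_κ κ'` (`κ`, `κ'` in the index set of CNT) is integral and triangular modulo 7 for the lexicographic order `(dgE, rhE)`, which determines `κ`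
(`dgE - 2 rhE` modulo `6` is `1, 2, 4, 5` for `c = 0, 1, 2, 3`). The generic part is in `Pool/Agent/Helper76/TL/Wo.lean` (`WO 7`, `unit_det`). The vectors `evLE 7 (G_κ)` are independent. -/
def TLBof : Prop := TTri → TLif → TUnb → TCnt → LBE 7 3 ddE7

end Pool.Agent.Helper14.TL7
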