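import Pool.Agent.Helper14.TL7.LB
import Pool.Agent.Helper93.TLE.Asm7
import Pool.Agent.Helper79.TL.Asm5
import Pool.Agent.Helper79.TL.M_Lft7
import Pool.Agent.Helper76.TL.Ub7
import Pool.Agent.Helper76.TL.M_Bas7

/-!
# Project TL: the cores and Theorem A for levels `4·7^n`
-/

set_option autoImplicit false

namespace Pool.Agent.Helper14.TL7

open Pool.Agent.Helper93.TLE

/-- The core for levels `4·7^n`, `n ≥ 3`. -/
theorem coreE7 : CoreE 7 := core7E Pool.Agent.Helper76.TL7.ube7 lb7

/-- The core for level `196`. -/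
theorem coreW72 : CoreW 7 2 := core72E lb7

/-- The core for level `28`. -/
theorem coreW71 : CoreW 7 1 := core71E

/-- Theorem A for twisted symbols, `p = 7`. -/
theorem ta7 : Pool.Agent.Helper79.TL.TAE 7 :=
  Pool.Agent.Helper79.TL.hTAof 7 3 ddE7 (by norm_num) (by norm_num) (by norm_num) b3b7E
    Pool.Agent.Helper76.TL7.ube7 lb7 coreW72
    (Pool.Agent.Helper76.TL7.hBas7 triT lifT cntT)
    (Pool.Agent.Helper79.TL.hLft7 Pool.Agent.Helper84.S7.trm relT exT uniT)

end Pool.Agent.Helper14.TL7
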