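import Pool.Agent.Helper14.TL7.StD

/-!
# Project TL (levels `4·7^n`), module Opm: the relations as lists
-/

set_option autoImplicit false

namespace Pool.Agent.Helper14.TL7

open Pool.Agent.Helper84.S7 Pool.Agent.Helper4.S7

private theorem om_nil {q q' : ℕ} : (opL [] : Module.End (ZMod 7) (Fn7 q q')) = 0 := by simp [opL]

private theorem om_cons {q q' : ℕ} (t : Tm) (L : List Tm) : (opL (t :: L) : Module.End (ZMod 7) (Fn7 q q')) =
    ((t.1 : ℤ) : ZMod 7) • op7 t.2.1 t.2.2.1 t.2.2.2.1 t.2.2.2.2 + opL L := by simp [opL]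

/-- the first relation -/
private theorem om_rel0 {r s : ℕ} (hTrm : S7Trm) (F : Fin 2 → Fn7 (7 ^ r) (7 ^ s)) (x : ZMod (7 ^ r))
    (y : ZMod (7 ^ s)) : (∑ f : Fin 2, opL (relE 0 f) (F f)) x y =
      F 1 x y + tr7 2 (-1) 1 (-3) (F 1) x y + tr7 3 (-1) 1 (-2) (F 1) x y := by
  have h0 : ∀ G : Fn7 (7 ^ r) (7 ^ s), op7 1 0 0 1 G = G := fun G => (hTrm (ZMod 7) r s G).2.1
  rw [Fin.sum_univ_two]
  simp only [relE, om_cons, om_nil, LinearMap.add_apply, LinearMap.smul_apply,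
    LinearMap.zero_apply, h0]
  simp only [Pi.add_apply, Pi.smul_apply, smul_eq_mul, Pi.zero_apply, add_zero, zero_add]
  push_cast
  change 1 * F 1 x y + (1 * tr7 2 (-1) 1 (-3) (F 1) x y + 1 * tr7 3 (-1) 1 (-2) (F 1) x y) = _
  ring

/-- the second relation -/
private theorem om_rel1 {r s : ℕ} (hTrm : S7Trm) (F : Fin 2 → Fn7 (7 ^ r) (7 ^ s)) (x : ZMod (7 ^ r))
    (y : ZMod (7 ^ s)) : (∑ f : Fin 2, opL (relE 1 f) (F f)) x y =
      F 0 x y + tr7 1 1 0 1 (F 0) x y - F 1 x y +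
    (tr7 5 (-3) 1 (-4) (F 0) x y + tr7 5 2 1 3 (F 0) x y - tr7 5 (-3) 1 (-4) (F 1) x y) +
    (tr7 4 (-3) 1 (-5) (F 0) x y + tr7 4 1 1 2 (F 0) x y - tr7 4 (-3) 1 (-5) (F 1) x y) := by
  have h0 : ∀ G : Fn7 (7 ^ r) (7 ^ s), op7 1 0 0 1 G = G := fun G => (hTrm (ZMod 7) r s G).2.1
  rw [Fin.sum_univ_two]
  simp only [relE, om_cons, om_nil, LinearMap.add_apply, LinearMap.smul_apply,
    LinearMap.zero_apply, h0]
  simp only [Pi.add_apply, Pi.smul_apply, smul_eq_mul, Pi.zero_apply, add_zero]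
  push_cast
  change 1 * F 0 x y + (1 * tr7 1 1 0 1 (F 0) x y + (1 * tr7 5 (-3) 1 (-4) (F 0) x y +
    (1 * tr7 5 2 1 3 (F 0) x y + (1 * tr7 4 (-3) 1 (-5) (F 0) x y + 1 * tr7 4 1 1 2 (F 0) x y)))) +
    (-1 * F 1 x y + (-1 * tr7 5 (-3) 1 (-4) (F 1) x y + -1 * tr7 4 (-3) 1 (-5) (F 1) x y)) = _
  ring

/-- Module Opm. -/
theorem hOpmE (hm : S7Trm) : TOpm := by
  intro r s F
  constructor
  · intro h ρ
    funext x y
    fin_cases ρ
    · exact (om_rel0 hm F x y).trans (h.1 x y)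
    · exact (om_rel1 hm F x y).trans (h.2 x y)
  · intro h
    refine ⟨fun x y => ?_, fun x y => ?_⟩
    · rw [← om_rel0 hm F x y, h 0]
      rfl
    · rw [← om_rel1 hm F x y, h 1]
      rfl

end Pool.Agent.Helper14.TL7
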