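import Pool.Agent.Helper4.S7.Tm

/-!
# Project TL (levels `4·7^n`): relations, rows of small Hecke operators, multipliers

A term `(k, a, b, c, d)` stands for `k` times the operator of `(a b; 7c d)` (`Helper4/S7/Tm.lean`; `mulL`, `sclL`, `mmL`, `idL`, `Gd` of W7 are used unchanged, all signs are coefficients). `F0(g) = eps(g) (G(g∞) - G(g0))`,
`F1(g) = eps(g) (G(g½) - G(g0))`, `k = F0 + F0∘T - F1` (path from `1/2` to `1`). The rows of `T_l` are computed with the even residues `-(l-1), ..., l-1`.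
-/

set_option autoImplicit false

namespace Pool.Agent.Helper14.TL7

open Pool.Agent.Helper4.S7 (Tm mulT mulL sclL Gd mmL idL)

/-- The two relations as rows of two lists: `relE ρ f`. -/
def relE : Fin 2 → Fin 2 → List Tm
  | 0, 0 => []
  | 0, 1 => [(1, 1, 0, 0, 1), (1, 2, -1, 1, -3), (1, 3, -1, 1, -2)]
  | 1, 0 => [(1, 1, 0, 0, 1), (1, 1, 1, 0, 1), (1, 5, -3, 1, -4), (1, 5, 2, 1, 3), (1, 4, -3, 1, -5), (1, 4, 1, 1, 2)]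
  | 1, 1 => [(-1, 1, 0, 0, 1), (-1, 5, -3, 1, -4), (-1, 4, -3, 1, -5)]

/-- The rows of `T_3`: `F_i(T_3 G) = ∑_f (T3L i f) F_f(G)`. -/
def T3L : Fin 2 → Fin 2 → List Tm
  | 0, 0 => [(-1, 1, -1, 1, -4), (-1, 1, 0, 1, 3), (-1, 3, -1, 0, 1), (-1, 3, 1, 0, 1), (1, 1, 0, 0, 3), (1, 3, 0, 0, 1)]
  | 0, 1 => [(-1, 1, 0, -1, 3), (1, 1, -1, 1, -4)]
  | 1, 0 => [(-1, 1, -1, 1, -4), (-1, 1, 0, 1, 3), (-1, 3, -3, 1, -6), (-1, 3, 0, 1, 1), (1, 1, 0, 0, 3), (1, 1, 1, 0, 3), (1, 4, -1, 1, -1), (1, 4, 3, 1, 6)]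
  | 1, 1 => [(-1, 1, 0, -1, 3), (-1, 1, 1, 0, 3), (-1, 3, -1, 0, 1), (1, 1, -1, 1, -4)]

/-- The rows of `T_5`: `F_i(T_5 G) = ∑_f (T5L i f) F_f(G)`. -/
def T5L : Fin 2 → Fin 2 → List Tm
  | 0, 0 => [(-1, 1, -1, 1, -2), (-1, 1, 0, -1, 5), (-1, 1, 0, 1, 5), (-1, 1, 1, -1, -2), (-1, 2, -1, -1, 6), (-1, 2, 1, -1, -1), (-1, 5, -3, 0, 1), (-1, 5, -1, 0, 1), (-1, 5, 1, 0, 1), (1, 1, 0, 0, 5), (1, 5, -2, 0, 1), (1, 5, 0, 0, 1)]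
  | 0, 1 => [(-1, 2, -1, 1, -1), (-1, 5, -2, 0, 1), (1, 2, -1, -1, 6), (1, 5, -3, 0, 1)]
  | 1, 0 => [(-1, 1, -1, 1, -2), (-1, 1, 0, -1, 5), (-1, 1, 0, 1, 5), (-1, 1, 1, -1, -2), (-1, 1, 2, 0, 5), (-1, 2, -1, -1, 6), (-1, 2, 1, -1, -1), (-1, 3, -5, 1, -10), (-1, 3, -2, 1, -3), (-1, 4, -3, 1, -4), (-1, 5, -3, 0, 1),
      (-1, 5, 2, 0, 1), (-1, 11, -6, 3, -11), (-1, 11, 5, 3, 10), (1, 1, 0, 0, 5), (1, 4, 5, 1, 10)]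
  | 1, 1 => [(-1, 2, -1, 1, -1), (1, 1, 2, 0, 5), (1, 2, -1, -1, 6), (1, 3, -2, 1, -3), (1, 4, -3, 1, -4), (1, 5, -3, 0, 1), (1, 10, -5, 3, -10), (1, 11, -6, 3, -11)]

/-- The rows of `T_11`: `F_i(T_11 G) = ∑_f (T11L i f) F_f(G)`. -/
def T11L : Fin 2 → Fin 2 → List Tm
  | 0, 0 => [(-1, 1, -1, 3, -10), (-1, 1, 0, -1, 11), (-1, 1, 0, 1, 11), (-1, 1, 0, 3, 11), (-1, 1, 1, -1, 4), (-1, 2, -1, -3, 16), (-1, 2, 1, -3, -5), (-1, 5, -2, -1, 5), (-1, 5, 3, -1, -2), (-1, 11, -7, 0, 1), (-1, 11, -5, 0, 1),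
      (-1, 11, -3, 0, 1), (-1, 11, -1, 0, 1), (-1, 11, 1, 0, 1), (-1, 11, 3, 0, 1), (1, 1, -2, 1, -3), (1, 1, -1, 2, -3), (1, 1, 0, -2, 11), (1, 1, 0, 0, 11), (1, 1, 0, 2, 11), (1, 1, 1, -2, -3), (1, 2, -1, -1, 9),
      (1, 2, 1, -1, 2), (1, 3, -1, -1, 6), (1, 3, 2, -1, -1), (1, 11, -6, 0, 1), (1, 11, -4, 0, 1), (1, 11, -2, 0, 1), (1, 11, 0, 0, 1), (1, 11, 2, 0, 1)]
  | 0, 1 => [(-1, 1, -2, 1, -3), (-1, 1, 0, -3, 11), (-1, 2, -1, -1, 9), (-1, 2, -1, 3, -5), (-1, 3, -1, -1, 6), (-1, 5, -3, 1, -2), (-1, 11, -6, 0, 1), (-1, 11, -4, 0, 1), (1, 1, -1, 3, -10), (1, 1, 1, -1, 4), (1, 2, -1, -3, 16),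
      (1, 2, -1, 1, 2), (1, 3, -2, 1, -1), (1, 5, -2, -1, 5), (1, 11, -7, 0, 1), (1, 11, -5, 0, 1)]
  | 1, 0 => [(-1, 1, -1, 3, -10), (-1, 1, 0, -1, 11), (-1, 1, 0, 1, 11), (-1, 1, 0, 3, 11), (-1, 1, 1, -1, 4), (-1, 2, -3, 1, -5), (-1, 2, -1, -3, 16), (-1, 2, -1, 1, 2), (-1, 2, 1, -3, -5), (-1, 3, -11, 1, -22), (-1, 3, -2, 1, -1),
      (-1, 5, -2, -1, 5), (-1, 5, 3, -1, -2), (-1, 6, -5, 1, -4), (-1, 6, 1, 1, 3), (-1, 11, -7, 0, 1), (-1, 11, 0, 3, 1), (-1, 11, 4, 0, 1), (-1, 11, 11, 3, 22), (-1, 13, -12, 4, -25), (-1, 13, 1, 4, 3), (-1, 25, -14, 7, -27),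
      (-1, 25, 11, 7, 22), (1, 1, -2, 1, -3), (1, 1, -1, 2, -3), (1, 1, 0, -2, 11), (1, 1, 0, 0, 11), (1, 1, 0, 2, 11), (1, 1, 1, -2, -3), (1, 1, 5, 0, 11), (1, 2, -1, -1, 9), (1, 2, 1, -1, 2), (1, 3, -1, -1, 6),
      (1, 3, 2, -1, -1), (1, 4, -1, 1, 1), (1, 4, 11, 1, 22), (1, 5, -3, 1, -2), (1, 5, 2, 1, 5), (1, 8, -5, 1, -3), (1, 8, 3, 1, 4), (1, 9, -4, 2, -5), (1, 9, 5, 2, 9), (1, 10, -11, 3, -22), (1, 10, -1, 3, -1),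
      (1, 18, -7, 5, -13), (1, 18, 11, 5, 22)]
  | 1, 1 => [(-1, 1, 0, -3, 11), (-1, 1, 5, 0, 11), (-1, 2, -1, -1, 9), (-1, 2, -1, 3, -5), (-1, 3, -1, -1, 6), (-1, 5, -4, 2, -9), (-1, 5, -3, 1, -2), (-1, 8, -5, 1, -3), (-1, 9, -4, 2, -5), (-1, 17, -11, 5, -22), (-1, 18, -7, 5, -13),
      (1, 1, -1, 3, -10), (1, 2, -1, -3, 16), (1, 2, -1, 1, 2), (1, 3, -2, 1, -1), (1, 5, -2, -1, 5), (1, 6, -5, 1, -4), (1, 11, -7, 0, 1), (1, 13, -12, 4, -25), (1, 15, -2, 4, -3), (1, 24, -11, 7, -22), (1, 25, -14, 7, -27)]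

/-- The rows of `T_13`: `F_i(T_13 G) = ∑_f (T13L i f) F_f(G)`. -/
def T13L : Fin 2 → Fin 2 → List Tm
  | 0, 0 => [(-1, 1, -1, 3, -8), (-1, 1, 0, -1, 13), (-1, 1, 0, 1, 13), (-1, 1, 0, 3, 13), (-1, 2, -1, -1, 10), (-1, 2, 1, -1, 3), (-1, 13, -7, 0, 1), (-1, 13, -5, 0, 1), (-1, 13, -3, 0, 1), (-1, 13, -1, 0, 1), (-1, 13, 1, 0, 1),
      (-1, 13, 3, 0, 1), (1, 1, -2, 1, -1), (1, 1, -1, 2, -1), (1, 1, -1, 4, -15), (1, 1, 0, -2, 13), (1, 1, 0, 0, 13), (1, 1, 0, 2, 13), (1, 1, 0, 4, 13), (1, 1, 1, -2, -1), (1, 1, 2, -1, -1), (1, 2, -3, 1, -4),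
      (1, 2, -1, -3, 17), (1, 2, -1, 1, 3), (1, 2, 1, -3, -4), (1, 4, -3, 1, -2), (1, 4, -1, -1, 5), (1, 4, 1, 1, 5), (1, 4, 3, -1, -2), (1, 5, -4, 1, -3), (1, 5, 1, 1, 4), (1, 13, -8, 0, 1), (1, 13, -6, 0, 1), (1, 13, -4, 0, 1),
      (1, 13, -2, 0, 1), (1, 13, 0, 0, 1), (1, 13, 2, 0, 1), (1, 13, 4, 0, 1)]
  | 0, 1 => [(-1, 1, -1, 4, -15), (-1, 1, 0, -3, 13), (-1, 2, -3, 1, -4), (-1, 2, -1, -3, 17), (-1, 2, -1, 1, 3), (-1, 5, -4, 1, -3), (-1, 13, -8, 0, 1), (-1, 13, -6, 0, 1), (1, 1, -1, 3, -8), (1, 1, 0, -4, 13), (1, 2, -1, -1, 10),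
      (1, 2, -1, 3, -4), (1, 2, 1, -1, 3), (1, 5, -1, -1, 4), (1, 13, -7, 0, 1), (1, 13, -5, 0, 1)]
  | 1, 0 => [(-1, 1, -3, 1, -8), (-1, 1, -1, 3, -8), (-1, 1, 0, -1, 13), (-1, 1, 0, 1, 13), (-1, 1, 0, 3, 13), (-1, 1, 1, -1, 6), (-1, 1, 6, 0, 13), (-1, 2, -5, 1, -11), (-1, 2, -1, -1, 10), (-1, 2, 1, -1, 3), (-1, 3, -13, 1, -26),
      (-1, 11, 2, 3, 5), (-1, 11, 13, 3, 26), (-1, 17, -13, 5, -26), (-1, 17, 4, 5, 9), (-1, 25, -12, 7, -23), (-1, 25, 13, 7, 26), (1, 1, -1, 2, -1), (1, 1, -1, 4, -15), (1, 1, 0, -2, 13), (1, 1, 0, 0, 13), (1, 1, 0, 2, 13),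
      (1, 1, 0, 4, 13), (1, 1, 1, -2, -1), (1, 2, -1, -3, 17), (1, 2, -1, 1, 3), (1, 2, 1, -3, -4), (1, 3, -1, 1, 2), (1, 4, 1, 1, 5), (1, 4, 13, 1, 26), (1, 5, 1, 1, 4), (1, 5, 6, 1, 11), (1, 10, -13, 3, -26), (1, 10, -3, 3, -5),
      (1, 13, -13, 4, -27), (1, 13, 0, 4, 1), (1, 18, -5, 5, -9), (1, 18, 13, 5, 26), (1, 32, -19, 9, -37), (1, 32, 13, 9, 26)]
  | 1, 1 => [(-1, 1, -1, 4, -15), (-1, 1, 0, -3, 13), (-1, 2, -1, -3, 17), (-1, 2, -1, 1, 3), (-1, 13, -13, 4, -27), (-1, 15, -1, 4, -1), (-1, 31, -13, 9, -26), (-1, 32, -19, 9, -37), (1, 1, -3, 1, -8), (1, 1, -1, 3, -8), (1, 1, 0, -4, 13),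
      (1, 1, 1, -1, 6), (1, 1, 6, 0, 13), (1, 2, -1, -1, 10), (1, 2, -1, 3, -4), (1, 2, 1, -1, 3), (1, 4, -1, -1, 5), (1, 5, -1, -1, 4), (1, 6, -1, 1, 1), (1, 8, -3, 1, -1), (1, 11, -5, 1, -2), (1, 13, -4, 0, 1),
      (1, 24, -13, 7, -26), (1, 25, -12, 7, -23)]

/-- Multipliers of the relations for `U`: `MUE i ρ`. -/
def MUE : Fin 2 → Fin 2 → List Tm
  | 0, 0 => [(-1, 2, 1, 2, -3), (1, 4, -1, 2, 2)]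
  | 0, 1 => [(-2, 2, 2, -3, 4), (2, 3, -3, 3, -1)]
  | 1, 0 => [(-3, 5, -1, 2, 5), (3, 6, 2, -3, -4)]
  | 1, 1 => [(-3, 2, 3, 3, -5), (-2, 2, 0, -3, -3), (-2, 5, -3, 2, -1)]

/-- Multipliers of the relations for `V`: `MVE i ρ`. -/
def MVE : Fin 2 → Fin 2 → List Tm
  | 0, 0 => [(-3, 1, 0, -2, -3), (-3, 1, 2, -2, -5), (-3, 1, 3, -1, 2), (-3, 3, 1, -2, -1), (-3, 4, -1, 0, -3), (-3, 4, 0, 0, -5), (-3, 5, 0, 1, -4), (-3, 6, -1, 3, -4), (-3, 6, 1, 0, -4), (-2, 1, 1, -1, -6), (-2, 2, -1, 3, -6),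
      (-2, 3, -3, -1, -2), (-2, 3, -1, -2, 5), (-2, 3, 0, 1, 3), (-2, 3, 1, 2, -4), (-1, 1, 0, 2, 2), (-1, 3, -1, -1, 6), (-1, 3, 2, -1, -2), (-1, 4, 3, 3, 4), (-1, 6, -3, 3, -2), (1, 3, -3, 3, -4), (1, 3, -3, 3, 5),
      (1, 4, 3, -1, -6), (1, 5, -3, -3, 6), (1, 5, -1, 3, -4), (1, 6, -1, -1, -1), (1, 6, 0, -1, -1), (2, 1, -3, 0, -5), (2, 2, 1, -1, -3), (2, 2, 1, 1, 2), (2, 3, 2, -3, 3), (2, 5, -1, 1, -2), (2, 5, 3, -3, -1), (3, 1, 2, -2, 2),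
      (3, 1, 2, 0, -3), (3, 4, 1, -3, -3), (3, 4, 1, -1, -3), (3, 4, 3, 1, -5), (3, 5, -3, 2, -1), (3, 5, 1, -1, 6)]
  | 0, 1 => [(-2, 2, 1, 0, -3), (-2, 3, -3, 1, 5), (-2, 5, 3, -3, -2), (-2, 6, -3, 2, -2), (-1, 1, 3, 3, 2), (-1, 2, -2, -1, -5), (-1, 3, -3, -1, -1), (-1, 4, -1, -1, 1), (-1, 4, 2, 0, -5), (-1, 5, -2, 2, 5), (-1, 5, 1, 2, 3),
      (-1, 6, 1, -1, -4), (1, 1, 2, -3, 1), (1, 1, 3, 0, 4), (1, 2, 3, 2, -5), (1, 3, 2, 1, 5), (1, 4, 3, -2, -6), (1, 4, 3, 3, -3), (1, 5, 0, -1, 6), (2, 1, -1, -1, 2), (2, 1, 1, 2, 1), (2, 2, -1, 0, -5), (2, 2, 0, 1, 2),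
      (2, 5, -1, 3, 3), (2, 6, 1, 0, 5), (3, 1, -1, -3, -5), (3, 2, 0, 1, 4), (3, 3, -1, -1, 6), (3, 4, 3, -2, 4), (3, 5, -3, -1, -4), (3, 5, 1, 0, -2), (3, 6, -1, 2, 6)]
  | 1, 0 => [(-3, 1, 1, -1, -5), (-3, 2, 1, 0, -3), (-3, 3, -2, -1, -1), (-3, 3, 1, -2, -2), (-3, 4, -1, 2, 1), (-3, 4, 1, -1, -5), (-3, 5, -3, -3, 6), (-2, 1, 0, 3, 4), (-2, 3, -3, -1, -1), (-2, 4, 2, 3, -3), (-2, 5, 2, 1, -4),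
      (-2, 5, 2, 1, 5), (-2, 5, 3, 3, 3), (-1, 2, -2, 1, -3), (-1, 2, 2, -2, 1), (-1, 4, 3, 3, -3), (-1, 6, -3, -1, 3), (1, 3, 1, -1, 6), (1, 3, 1, 2, -1), (1, 4, -2, -2, 1), (1, 6, -2, -3, 3), (1, 6, 2, 3, -2), (2, 1, 2, -2, -6),
      (2, 2, -1, 1, 2), (2, 2, 0, -3, -6), (2, 2, 0, 3, 4), (2, 4, -2, 0, -5), (2, 4, -1, 1, -6), (2, 4, 1, -2, -6), (2, 5, 1, 2, 3), (2, 6, -2, 3, 6), (2, 6, 2, 1, 3), (3, 1, -2, 1, 2), (3, 1, 3, -3, 2), (3, 2, 2, 2, -3),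
      (3, 3, 1, 2, 5), (3, 3, 2, 0, 3), (3, 3, 3, -1, -1), (3, 4, -1, -2, 4), (3, 4, 0, -2, -5), (3, 4, 0, 1, 1), (3, 5, 1, 3, -2)]
  | 1, 1 => [(-3, 1, -1, -1, -6), (-3, 2, 1, -1, -5), (-3, 2, 3, 1, 4), (-3, 3, -2, -1, -2), (-3, 4, -3, -1, -3), (-3, 4, 3, -2, -6), (-3, 6, 2, -3, 5), (-2, 1, -3, 1, 4), (-2, 2, 0, -3, -3), (-2, 2, 2, 1, -6), (-2, 3, -3, 2, -2),
      (-2, 5, -1, 1, -2), (-2, 6, 2, -2, 5), (-2, 6, 3, 1, 5), (-1, 1, 2, -3, 4), (-1, 1, 2, -2, 4), (-1, 2, 3, 0, -6), (-1, 3, -2, 1, -1), (-1, 3, -2, 3, -1), (-1, 3, -1, -3, -2), (-1, 5, -2, 3, 3), (-1, 5, 2, 3, -2),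
      (1, 2, -2, -3, -3), (1, 2, -1, 0, -5), (1, 2, 1, -2, 1), (1, 2, 2, -1, 1), (1, 5, 3, -1, 6), (2, 4, 0, 1, -6), (2, 5, -3, -1, -1), (2, 6, 2, 3, -1), (3, 3, -3, 3, -2), (3, 5, 2, -3, 5)]

/-- Multipliers of the relations for the operators at the origin, `c = 0, 1, 2, 3`: `MOE c ρ`. -/
def MOE : Fin 4 → Fin 2 → List Tm
  | 0, 0 => [(-1, 2, -3, -3, 2)]
  | 0, 1 => [(-1, 6, 1, -1, -4)]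
  | 1, 0 => [(1, 6, 2, 1, 4)]
  | 1, 1 => [(1, 3, 3, 2, -1)]
  | 2, 0 => [(2, 3, 0, -2, 6), (2, 4, 0, 0, 5), (3, 4, 3, 3, -4)]
  | 2, 1 => [(-3, 1, -2, 0, 6), (-3, 4, -2, 2, 5), (-1, 5, 0, -3, 2)]
  | 3, 0 => [(-3, 4, 3, 2, 2), (-3, 5, 1, 2, 3), (-3, 5, 3, -2, 6), (-2, 3, -2, 3, 6), (-2, 3, -1, 2, -4), (-1, 4, -3, 3, 1), (3, 1, 1, -2, -2)]
  | 3, 1 => [(-3, 3, 2, 0, -6), (-3, 3, 3, 3, -2), (-3, 4, 2, 0, 3), (-2, 1, -1, 0, 2), (-2, 2, -3, -2, 4), (-1, 3, 3, 0, 4), (3, 1, 0, -2, -1)]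

end Pool.Agent.Helper14.TL7
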