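import Pool.Agent.Helper4.S7.Tm

/-!
# Project TL (levels `4·7^n`): rows of `T_37`

A term `(k, a, b, c, d)` stands for `k` times the operator of `(a b; 7c d)` (`Helper4/S7/Tm.lean`; `mulL`, `sclL`, `mmL`, `idL`, `Gd` of W7 are used unchanged, all signs are coefficients). `F0(g) = eps(g) (G(g∞) - G(g0))`,
`F1(g) = eps(g) (G(g½) - G(g0))`, `k = F0 + F0∘T - F1` (path from `1/2` to `1`). The rows of `T_l` are computed with the even residues `-(l-1), ..., l-1`.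
-/

set_option autoImplicit false

namespace Pool.Agent.Helper14.TL7

open Pool.Agent.Helper4.S7 (Tm mulT mulL sclL Gd mmL idL)

/-- The rows of `T_37`: `F_i(T_37 G) = ∑_f (T37L i f) F_f(G)`. -/
def T37L : Fin 2 → Fin 2 → List Tm
  | 0, 0 => [(-1, 1, -5, 1, 2), (-1, 1, -1, 5, 2), (-1, 1, -1, 7, -12), (-1, 1, -1, 9, -26), (-1, 1, -1, 11, -40), (-1, 1, -1, 13, -54), (-1, 1, 0, -7, 37), (-1, 1, 0, -5, 37), (-1, 1, 0, -3, 37), (-1, 1, 0, -1, 37), (-1, 1, 0, 1, 37),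
      (-1, 1, 0, 3, 37), (-1, 1, 0, 5, 37), (-1, 1, 0, 7, 37), (-1, 1, 0, 9, 37), (-1, 1, 0, 11, 37), (-1, 1, 0, 13, 37), (-1, 1, 1, -7, -12), (-1, 1, 1, -5, 2), (-1, 1, 2, -2, 9), (-1, 1, 5, -1, 2), (-1, 2, -5, 1, 1),
      (-1, 2, -3, 3, -13), (-1, 2, -1, -9, 50), (-1, 2, -1, -5, 36), (-1, 2, -1, -1, 22), (-1, 2, -1, 3, 8), (-1, 2, 1, -9, -13), (-1, 2, 1, -5, 1), (-1, 2, 5, -1, 1), (-1, 3, -7, 1, -4), (-1, 3, -2, 2, 3), (-1, 3, -1, -2, 17),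
      (-1, 3, 1, 2, 17), (-1, 3, 2, -2, 3), (-1, 4, -7, 1, -3), (-1, 4, -3, 5, -17), (-1, 4, 1, 5, 18), (-1, 12, -5, -1, 6), (-1, 12, 7, -1, -1), (-1, 13, -9, 1, -2), (-1, 13, -4, -1, 5), (-1, 13, 4, 1, 5), (-1, 13, 9, -1, -2),
      (-1, 18, -13, 1, -3), (-1, 18, 5, 1, 4), (-1, 37, -23, 0, 1), (-1, 37, -21, 0, 1), (-1, 37, -19, 0, 1), (-1, 37, -17, 0, 1), (-1, 37, -15, 0, 1), (-1, 37, -13, 0, 1), (-1, 37, -11, 0, 1), (-1, 37, -9, 0, 1),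
      (-1, 37, -7, 0, 1), (-1, 37, -5, 0, 1), (-1, 37, -3, 0, 1), (-1, 37, -1, 0, 1), (-1, 37, 1, 0, 1), (-1, 37, 3, 0, 1), (-1, 37, 5, 0, 1), (-1, 37, 7, 0, 1), (-1, 37, 9, 0, 1), (-1, 37, 11, 0, 1), (1, 1, -3, 2, -5),
      (1, 1, -2, 3, -5), (1, 1, -1, 4, 9), (1, 1, -1, 6, -5), (1, 1, -1, 8, -19), (1, 1, -1, 10, -33), (1, 1, -1, 12, -47), (1, 1, 0, -6, 37), (1, 1, 0, -4, 37), (1, 1, 0, -2, 37), (1, 1, 0, 0, 37), (1, 1, 0, 2, 37),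
      (1, 1, 0, 4, 37), (1, 1, 0, 6, 37), (1, 1, 0, 8, 37), (1, 1, 0, 10, 37), (1, 1, 0, 12, 37), (1, 1, 1, -6, -5), (1, 1, 1, -4, 9), (1, 1, 2, -3, -5), (1, 2, -1, -7, 43), (1, 2, -1, -3, 29), (1, 2, -1, 1, 15),
      (1, 2, 1, -7, -6), (1, 2, 1, -3, 8), (1, 3, -1, -5, 24), (1, 3, -1, 1, 10), (1, 3, 1, -1, 10), (1, 3, 2, -5, -11), (1, 3, 4, -1, 3), (1, 4, -1, -1, 11), (1, 4, 1, 1, 11), (1, 4, 3, -1, 4), (1, 5, -6, 1, -1),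
      (1, 5, -2, -2, 13), (1, 5, -1, 1, 6), (1, 5, 1, -1, 6), (1, 5, 3, -2, -1), (1, 5, 6, -1, -1), (1, 6, -7, 1, -2), (1, 6, -1, 1, 5), (1, 6, 1, -1, 5), (1, 6, 7, -1, -2), (1, 8, -5, -1, 9), (1, 8, 3, -1, 2), (1, 9, -5, -1, 8),
      (1, 9, 4, -1, 1), (1, 10, -11, 1, -4), (1, 10, -1, 1, 3), (1, 11, -10, 1, -3), (1, 11, 1, 1, 4), (1, 20, -9, -1, 5), (1, 20, 11, -1, -2), (1, 37, -24, 0, 1), (1, 37, -22, 0, 1), (1, 37, -20, 0, 1), (1, 37, -18, 0, 1),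
      (1, 37, -16, 0, 1), (1, 37, -14, 0, 1), (1, 37, -12, 0, 1), (1, 37, -10, 0, 1), (1, 37, -8, 0, 1), (1, 37, -6, 0, 1), (1, 37, -4, 0, 1), (1, 37, -2, 0, 1), (1, 37, 0, 0, 1), (1, 37, 2, 0, 1), (1, 37, 4, 0, 1),
      (1, 37, 6, 0, 1), (1, 37, 8, 0, 1), (1, 37, 10, 0, 1), (1, 37, 12, 0, 1)]
  | 0, 1 => [(-1, 1, -3, 2, -5), (-1, 1, -1, 8, -19), (-1, 1, -1, 10, -33), (-1, 1, -1, 12, -47), (-1, 1, 0, -13, 37), (-1, 1, 0, -11, 37), (-1, 1, 0, -9, 37), (-1, 2, -1, -7, 43), (-1, 2, -1, -3, 29), (-1, 2, -1, 1, 15), (-1, 2, -1, 5, 1),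
      (-1, 2, -1, 9, -13), (-1, 2, 1, -3, 8), (-1, 3, -1, -5, 24), (-1, 3, 4, -1, 3), (-1, 4, -1, -5, 18), (-1, 4, 3, -1, 4), (-1, 5, -2, -2, 13), (-1, 8, -5, -1, 9), (-1, 9, -5, -1, 8), (-1, 10, -11, 1, -4), (-1, 11, -10, 1, -3),
      (-1, 12, -7, 1, -1), (-1, 18, -5, -1, 4), (-1, 20, -9, -1, 5), (-1, 37, -24, 0, 1), (-1, 37, -22, 0, 1), (-1, 37, -20, 0, 1), (-1, 37, -18, 0, 1), (-1, 37, -16, 0, 1), (-1, 37, -14, 0, 1), (1, 1, -1, 9, -26),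
      (1, 1, -1, 11, -40), (1, 1, -1, 13, -54), (1, 1, 0, -12, 37), (1, 1, 0, -10, 37), (1, 1, 0, -8, 37), (1, 1, 2, -2, 9), (1, 2, -3, 3, -13), (1, 2, -1, -9, 50), (1, 2, -1, -5, 36), (1, 2, -1, -1, 22), (1, 2, -1, 3, 8),
      (1, 2, -1, 7, -6), (1, 3, -7, 1, -4), (1, 3, -2, 5, -11), (1, 4, -7, 1, -3), (1, 4, -3, 5, -17), (1, 5, -3, 2, -1), (1, 8, -3, 1, 2), (1, 9, -4, 1, 1), (1, 10, 1, -1, 3), (1, 11, -1, -1, 4), (1, 12, -5, -1, 6),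
      (1, 18, -13, 1, -3), (1, 20, -11, 1, -2), (1, 37, -23, 0, 1), (1, 37, -21, 0, 1), (1, 37, -19, 0, 1), (1, 37, -17, 0, 1), (1, 37, -15, 0, 1), (1, 37, -13, 0, 1)]
  | 1, 0 => [(-1, 1, -1, 5, 2), (-1, 1, -1, 7, -12), (-1, 1, -1, 9, -26), (-1, 1, -1, 11, -40), (-1, 1, -1, 13, -54), (-1, 1, 0, -7, 37), (-1, 1, 0, -5, 37), (-1, 1, 0, -3, 37), (-1, 1, 0, -1, 37), (-1, 1, 0, 1, 37), (-1, 1, 0, 3, 37),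
      (-1, 1, 0, 5, 37), (-1, 1, 0, 7, 37), (-1, 1, 0, 9, 37), (-1, 1, 0, 11, 37), (-1, 1, 0, 13, 37), (-1, 1, 1, -7, -12), (-1, 1, 1, -5, 2), (-1, 1, 2, -2, 9), (-1, 1, 18, 0, 37), (-1, 2, -13, 1, -27), (-1, 2, -3, 3, -13),
      (-1, 2, -1, -9, 50), (-1, 2, -1, -5, 36), (-1, 2, -1, -1, 22), (-1, 2, -1, 3, 8), (-1, 2, 1, -9, -13), (-1, 2, 1, -5, 1), (-1, 3, -37, 1, -74), (-1, 3, -1, -2, 17), (-1, 3, 1, 2, 17), (-1, 3, 2, -2, 3), (-1, 4, -3, 5, -17),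
      (-1, 4, 1, 5, 18), (-1, 5, -8, 2, -15), (-1, 5, -3, 2, -1), (-1, 8, -9, 3, -19), (-1, 8, -3, 1, 2), (-1, 8, -1, 3, 2), (-1, 8, 5, 1, 9), (-1, 9, -4, 1, 1), (-1, 9, 5, 1, 8), (-1, 11, -5, 2, -3), (-1, 11, 6, 2, 11),
      (-1, 11, 37, 3, 74), (-1, 12, -5, -1, 6), (-1, 12, 7, -1, -1), (-1, 13, -11, 2, -9), (-1, 13, 1, 4, 5), (-1, 13, 2, 2, 5), (-1, 17, -37, 5, -74), (-1, 18, 1, 5, 4), (-1, 19, -14, 6, -29), (-1, 19, 5, 6, 13),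
      (-1, 25, -16, 1, -3), (-1, 25, 9, 1, 4), (-1, 25, 37, 7, 74), (-1, 27, -32, 8, -65), (-1, 27, -5, 8, -9), (-1, 31, -37, 9, -74), (-1, 31, -6, 9, -11), (-1, 39, -2, 11, -3), (-1, 39, 37, 11, 74), (-1, 45, -37, 13, -74),
      (-1, 45, 8, 13, 17), (-1, 53, -16, 15, -31), (-1, 53, 37, 15, 74), (-1, 55, -46, 16, -93), (-1, 55, 9, 16, 19), (-1, 67, -30, 19, -59), (-1, 67, 37, 19, 74), (-1, 81, -44, 23, -87), (-1, 81, 37, 23, 74), (1, 1, -8, 1, -19),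
      (1, 1, -3, 2, -5), (1, 1, -2, 3, -5), (1, 1, -1, 4, 9), (1, 1, -1, 6, -5), (1, 1, -1, 8, -19), (1, 1, -1, 10, -33), (1, 1, -1, 12, -47), (1, 1, 0, -6, 37), (1, 1, 0, -4, 37), (1, 1, 0, -2, 37), (1, 1, 0, 0, 37),
      (1, 1, 0, 2, 37), (1, 1, 0, 4, 37), (1, 1, 0, 6, 37), (1, 1, 0, 8, 37), (1, 1, 0, 10, 37), (1, 1, 0, 12, 37), (1, 1, 1, -6, -5), (1, 1, 1, -4, 9), (1, 1, 2, -3, -5), (1, 1, 4, -1, 9), (1, 2, -1, -7, 43), (1, 2, -1, -3, 29),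
      (1, 2, -1, 1, 15), (1, 2, 1, -7, -6), (1, 2, 1, -3, 8), (1, 2, 3, -1, 8), (1, 3, -5, 2, -11), (1, 3, -1, -5, 24), (1, 3, -1, 1, 10), (1, 3, 2, -5, -11), (1, 4, -1, -1, 11), (1, 4, 1, 1, 11), (1, 4, 3, -1, 4),
      (1, 4, 37, 1, 74), (1, 5, -2, -2, 13), (1, 5, -1, 1, 6), (1, 5, 3, -2, -1), (1, 5, 14, 1, 27), (1, 6, -1, 1, 5), (1, 6, 5, 1, 12), (1, 8, -5, -1, 9), (1, 8, 3, -1, 2), (1, 9, -5, -1, 8), (1, 9, -2, 2, 1), (1, 9, 4, -1, 1),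
      (1, 9, 7, 2, 15), (1, 10, -37, 3, -74), (1, 10, -7, 3, -11), (1, 11, -7, 3, -10), (1, 12, -7, 1, -1), (1, 12, 5, 1, 6), (1, 13, -25, 4, -51), (1, 13, -3, 3, -2), (1, 13, 10, 3, 19), (1, 15, -8, 2, -5), (1, 15, -4, 4, -5),
      (1, 15, 7, 2, 9), (1, 15, 11, 4, 23), (1, 17, -8, 4, -11), (1, 17, -3, 5, -4), (1, 17, 9, 4, 17), (1, 18, 37, 5, 74), (1, 19, -13, 5, -22), (1, 19, 6, 5, 13), (1, 23, -20, 7, -41), (1, 23, -8, 6, -13), (1, 23, 3, 7, 8),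
      (1, 23, 15, 6, 29), (1, 24, -37, 7, -74), (1, 24, -13, 7, -25), (1, 25, -13, 7, -24), (1, 32, 5, 9, 11), (1, 32, 37, 9, 74), (1, 38, -37, 11, -74), (1, 38, 1, 11, 3), (1, 41, -39, 12, -79), (1, 41, 2, 12, 5),
      (1, 46, -9, 13, -17), (1, 46, 37, 13, 74), (1, 52, -37, 15, -74), (1, 52, 15, 15, 31), (1, 60, -23, 17, -45), (1, 60, 37, 17, 74), (1, 69, -53, 20, -107), (1, 69, 16, 20, 33), (1, 74, -37, 21, -73), (1, 74, 37, 21, 74),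
      (1, 88, -51, 25, -101), (1, 88, 37, 25, 74)]
  | 1, 1 => [(-1, 1, -8, 1, -19), (-1, 1, -1, 8, -19), (-1, 1, -1, 10, -33), (-1, 1, -1, 12, -47), (-1, 1, 0, -13, 37), (-1, 1, 0, -11, 37), (-1, 1, 0, -9, 37), (-1, 2, -1, -7, 43), (-1, 2, -1, -3, 29), (-1, 2, -1, 1, 15), (-1, 2, -1, 5, 1),
      (-1, 2, -1, 9, -13), (-1, 2, 1, -3, 8), (-1, 3, -1, -5, 24), (-1, 4, -1, -5, 18), (-1, 5, -2, -2, 13), (-1, 6, 5, 1, 12), (-1, 8, -5, -1, 9), (-1, 9, -5, -1, 8), (-1, 10, -7, 3, -11), (-1, 11, -8, 4, -17),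
      (-1, 11, -7, 3, -10), (-1, 12, -7, 1, -1), (-1, 13, -25, 4, -51), (-1, 13, -4, -1, 5), (-1, 15, -8, 2, -5), (-1, 15, 11, 4, 23), (-1, 16, -7, 5, -13), (-1, 17, -8, 4, -11), (-1, 19, -13, 5, -22), (-1, 23, -20, 7, -41),
      (-1, 24, -13, 7, -25), (-1, 25, -13, 7, -24), (-1, 26, -5, 7, -8), (-1, 41, -39, 12, -79), (-1, 43, -3, 12, -5), (-1, 59, -37, 17, -74), (-1, 60, -23, 17, -45), (-1, 69, -53, 20, -107), (-1, 71, -17, 20, -33),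
      (-1, 73, -37, 21, -74), (-1, 74, -37, 21, -73), (-1, 87, -37, 25, -74), (-1, 88, -51, 25, -101), (1, 1, -1, 9, -26), (1, 1, -1, 11, -40), (1, 1, -1, 13, -54), (1, 1, 0, -12, 37), (1, 1, 0, -10, 37), (1, 1, 0, -8, 37),
      (1, 1, 18, 0, 37), (1, 2, -3, 3, -13), (1, 2, -1, -9, 50), (1, 2, -1, -5, 36), (1, 2, -1, -1, 22), (1, 2, -1, 3, 8), (1, 2, -1, 7, -6), (1, 3, -2, 5, -11), (1, 3, 1, -1, 10), (1, 4, -3, 5, -17), (1, 5, -3, 2, -1),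
      (1, 8, -3, 1, 2), (1, 9, -4, 1, 1), (1, 10, -1, 1, 3), (1, 10, 1, -1, 3), (1, 12, -5, -1, 6), (1, 13, -11, 2, -9), (1, 25, -16, 1, -3), (1, 27, -32, 8, -65), (1, 27, -13, 1, -2), (1, 29, 4, 8, 9), (1, 37, -12, 0, 1),
      (1, 55, -46, 16, -93), (1, 57, -10, 16, -19), (1, 66, -37, 19, -74), (1, 67, -30, 19, -59), (1, 80, -37, 23, -74), (1, 81, -44, 23, -87)]

end Pool.Agent.Helper14.TL7
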