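import Pool.Agent.Helper4.S7.Tm

/-!
# Project TL (levels `4·7^n`): rows of `T_43`

A term `(k, a, b, c, d)` stands for `k` times the operator of `(a b; 7c d)` (`Helper4/S7/Tm.lean`; `mulL`, `sclL`, `mmL`, `idL`, `Gd` of W7 are used unchanged, all signs are coefficients). `F0(g) = eps(g) (G(g∞) - G(g0))`,
`F1(g) = eps(g) (G(g½) - G(g0))`, `k = F0 + F0∘T - F1` (path from `1/2` to `1`). The rows of `T_l` are computed with the even residues `-(l-1), ..., l-1`.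
-/

set_option autoImplicit false

namespace Pool.Agent.Helper14.TL7

open Pool.Agent.Helper4.S7 (Tm mulT mulL sclL Gd mmL idL)

/-- The rows of `T_43`: `F_i(T_43 G) = ∑_f (T43L i f) F_f(G)`. -/
def T43L : Fin 2 → Fin 2 → List Tm
  | 0, 0 => [(-1, 1, -2, 4, -13), (-1, 1, -1, 5, 8), (-1, 1, -1, 7, -6), (-1, 1, -1, 9, -20), (-1, 1, -1, 11, -34), (-1, 1, -1, 13, -48), (-1, 1, -1, 15, -62), (-1, 1, 0, -9, 43), (-1, 1, 0, -7, 43), (-1, 1, 0, -5, 43), (-1, 1, 0, -3, 43),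
      (-1, 1, 0, -1, 43), (-1, 1, 0, 1, 43), (-1, 1, 0, 3, 43), (-1, 1, 0, 5, 43), (-1, 1, 0, 7, 43), (-1, 1, 0, 9, 43), (-1, 1, 0, 11, 43), (-1, 1, 0, 13, 43), (-1, 1, 0, 15, 43), (-1, 1, 1, -9, -20), (-1, 1, 1, -7, -6),
      (-1, 1, 1, -5, 8), (-1, 2, -7, 1, -3), (-1, 2, -1, -11, 60), (-1, 2, -1, -7, 46), (-1, 2, -1, -3, 32), (-1, 2, -1, 1, 18), (-1, 2, 1, -11, -17), (-1, 2, 1, -7, -3), (-1, 2, 1, -3, 11), (-1, 3, -7, 1, -2),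
      (-1, 3, -1, -2, 19), (-1, 3, 1, 2, 19), (-1, 3, 2, -2, 5), (-1, 3, 7, -1, -2), (-1, 4, -3, 3, -5), (-1, 4, -1, -3, 16), (-1, 4, 1, 3, 16), (-1, 4, 3, -3, -5), (-1, 5, -9, 1, -4), (-1, 5, -3, -2, 17), (-1, 5, -2, -3, 17),
      (-1, 5, 2, -2, 3), (-1, 5, 3, -3, -4), (-1, 6, -7, 1, -1), (-1, 6, -1, 1, 6), (-1, 6, 1, -1, 6), (-1, 6, 7, -1, -1), (-1, 8, -3, -1, 8), (-1, 8, 5, -1, 1), (-1, 16, -13, 1, -3), (-1, 16, 3, 1, 4), (-1, 17, -6, -1, 5),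
      (-1, 17, 11, -1, -2), (-1, 43, -27, 0, 1), (-1, 43, -25, 0, 1), (-1, 43, -23, 0, 1), (-1, 43, -21, 0, 1), (-1, 43, -19, 0, 1), (-1, 43, -17, 0, 1), (-1, 43, -15, 0, 1), (-1, 43, -13, 0, 1), (-1, 43, -11, 0, 1),
      (-1, 43, -9, 0, 1), (-1, 43, -7, 0, 1), (-1, 43, -5, 0, 1), (-1, 43, -3, 0, 1), (-1, 43, -1, 0, 1), (-1, 43, 1, 0, 1), (-1, 43, 3, 0, 1), (-1, 43, 5, 0, 1), (-1, 43, 7, 0, 1), (-1, 43, 9, 0, 1), (-1, 43, 11, 0, 1),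
      (-1, 43, 13, 0, 1), (1, 1, -6, 1, 1), (1, 1, -3, 2, 1), (1, 1, -2, 3, 1), (1, 1, -1, 6, 1), (1, 1, -1, 8, -13), (1, 1, -1, 10, -27), (1, 1, -1, 12, -41), (1, 1, -1, 14, -55), (1, 1, 0, -8, 43), (1, 1, 0, -6, 43),
      (1, 1, 0, -4, 43), (1, 1, 0, -2, 43), (1, 1, 0, 0, 43), (1, 1, 0, 2, 43), (1, 1, 0, 4, 43), (1, 1, 0, 6, 43), (1, 1, 0, 8, 43), (1, 1, 0, 10, 43), (1, 1, 0, 12, 43), (1, 1, 0, 14, 43), (1, 1, 1, -8, -13), (1, 1, 1, -6, 1),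
      (1, 1, 1, -4, 15), (1, 1, 2, -3, 1), (1, 1, 3, -2, 1), (1, 1, 6, -1, 1), (1, 2, -3, 3, -10), (1, 2, -1, -9, 53), (1, 2, -1, -5, 39), (1, 2, -1, -1, 25), (1, 2, -1, 3, 11), (1, 2, 1, -9, -10), (1, 2, 1, -5, 4),
      (1, 2, 5, -1, 4), (1, 3, -5, 2, -9), (1, 3, -1, -5, 26), (1, 3, -1, 1, 12), (1, 3, 1, -1, 12), (1, 3, 2, -5, -9), (1, 4, -5, 1, 2), (1, 4, -1, 1, 9), (1, 4, 1, -1, 9), (1, 4, 5, -1, 2), (1, 5, -1, -1, 10), (1, 5, 1, 1, 10),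
      (1, 5, 4, -1, 3), (1, 9, -10, 1, -3), (1, 9, -4, -2, 11), (1, 9, -1, 1, 4), (1, 9, 5, -2, -3), (1, 10, -9, 1, -2), (1, 10, -1, -1, 5), (1, 10, 1, 1, 5), (1, 10, 9, -1, -2), (1, 12, -13, 1, -4), (1, 12, -1, 1, 3),
      (1, 13, -5, -1, 6), (1, 13, 8, -1, -1), (1, 23, -16, 1, -3), (1, 23, 7, 1, 4), (1, 24, -11, -1, 5), (1, 24, 13, -1, -2), (1, 43, -28, 0, 1), (1, 43, -26, 0, 1), (1, 43, -24, 0, 1), (1, 43, -22, 0, 1), (1, 43, -20, 0, 1),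
      (1, 43, -18, 0, 1), (1, 43, -16, 0, 1), (1, 43, -14, 0, 1), (1, 43, -12, 0, 1), (1, 43, -10, 0, 1), (1, 43, -8, 0, 1), (1, 43, -6, 0, 1), (1, 43, -4, 0, 1), (1, 43, -2, 0, 1), (1, 43, 0, 0, 1), (1, 43, 2, 0, 1),
      (1, 43, 4, 0, 1), (1, 43, 6, 0, 1), (1, 43, 8, 0, 1), (1, 43, 10, 0, 1), (1, 43, 12, 0, 1), (1, 43, 14, 0, 1)]
  | 0, 1 => [(-1, 1, -1, 10, -27), (-1, 1, -1, 12, -41), (-1, 1, -1, 14, -55), (-1, 1, 0, -15, 43), (-1, 1, 0, -13, 43), (-1, 1, 0, -11, 43), (-1, 1, 1, -4, 15), (-1, 2, -3, 3, -10), (-1, 2, -1, -9, 53), (-1, 2, -1, -5, 39),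
      (-1, 2, -1, -1, 25), (-1, 2, -1, 3, 11), (-1, 2, -1, 7, -3), (-1, 2, -1, 11, -17), (-1, 2, 5, -1, 4), (-1, 3, -5, 2, -9), (-1, 3, -1, -5, 26), (-1, 5, -3, 3, -4), (-1, 5, -2, 2, 3), (-1, 5, 4, -1, 3), (-1, 8, -5, 1, 1),
      (-1, 9, -10, 1, -3), (-1, 9, -4, -2, 11), (-1, 12, -13, 1, -4), (-1, 13, -5, -1, 6), (-1, 16, -3, -1, 4), (-1, 17, -11, 1, -2), (-1, 23, -16, 1, -3), (-1, 24, -11, -1, 5), (-1, 43, -28, 0, 1), (-1, 43, -26, 0, 1),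
      (-1, 43, -24, 0, 1), (-1, 43, -22, 0, 1), (-1, 43, -20, 0, 1), (-1, 43, -18, 0, 1), (-1, 43, -16, 0, 1), (1, 1, -2, 4, -13), (1, 1, -1, 11, -34), (1, 1, -1, 13, -48), (1, 1, -1, 15, -62), (1, 1, 0, -14, 43),
      (1, 1, 0, -12, 43), (1, 1, 0, -10, 43), (1, 2, -7, 1, -3), (1, 2, -1, -11, 60), (1, 2, -1, -7, 46), (1, 2, -1, -3, 32), (1, 2, -1, 1, 18), (1, 2, -1, 5, 4), (1, 2, -1, 9, -10), (1, 2, 1, -3, 11), (1, 3, -2, 5, -9),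
      (1, 3, 2, -2, 5), (1, 5, -9, 1, -4), (1, 5, -3, -2, 17), (1, 5, -2, -3, 17), (1, 8, -3, -1, 8), (1, 9, -5, 2, -3), (1, 9, 1, -1, 4), (1, 12, 1, -1, 3), (1, 13, -8, 1, -1), (1, 16, -13, 1, -3), (1, 17, -6, -1, 5),
      (1, 23, -7, -1, 4), (1, 24, -13, 1, -2), (1, 43, -27, 0, 1), (1, 43, -25, 0, 1), (1, 43, -23, 0, 1), (1, 43, -21, 0, 1), (1, 43, -19, 0, 1), (1, 43, -17, 0, 1), (1, 43, -15, 0, 1)]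
  | 1, 0 => [(-1, 1, -9, 1, -20), (-1, 1, -4, 2, -13), (-1, 1, -2, 4, -13), (-1, 1, -1, 5, 8), (-1, 1, -1, 7, -6), (-1, 1, -1, 9, -20), (-1, 1, -1, 11, -34), (-1, 1, -1, 13, -48), (-1, 1, -1, 15, -62), (-1, 1, 0, -9, 43), (-1, 1, 0, -7, 43),
      (-1, 1, 0, -5, 43), (-1, 1, 0, -3, 43), (-1, 1, 0, -1, 43), (-1, 1, 0, 1, 43), (-1, 1, 0, 3, 43), (-1, 1, 0, 5, 43), (-1, 1, 0, 7, 43), (-1, 1, 0, 9, 43), (-1, 1, 0, 11, 43), (-1, 1, 0, 13, 43), (-1, 1, 0, 15, 43),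
      (-1, 1, 1, -9, -20), (-1, 1, 1, -7, -6), (-1, 1, 1, -5, 8), (-1, 1, 5, -1, 8), (-1, 2, -15, 1, -31), (-1, 2, -1, -11, 60), (-1, 2, -1, -7, 46), (-1, 2, -1, -3, 32), (-1, 2, -1, 1, 18), (-1, 2, 1, -11, -17),
      (-1, 2, 1, -7, -3), (-1, 2, 1, -3, 11), (-1, 2, 3, -1, 11), (-1, 3, -43, 1, -86), (-1, 3, -1, -2, 19), (-1, 3, 1, 2, 19), (-1, 3, 2, -2, 5), (-1, 4, -3, 3, -5), (-1, 4, -1, -3, 16), (-1, 4, 1, 3, 16), (-1, 4, 3, -3, -5),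
      (-1, 5, -12, 2, -25), (-1, 5, -3, -2, 17), (-1, 5, -2, -3, 17), (-1, 5, 2, -2, 3), (-1, 5, 3, -3, -4), (-1, 6, -1, 1, 6), (-1, 6, 5, 1, 13), (-1, 9, -5, 2, -3), (-1, 10, -3, 3, -2), (-1, 11, -7, 2, -5), (-1, 11, 4, 2, 9),
      (-1, 11, 43, 3, 86), (-1, 13, -28, 4, -57), (-1, 13, -8, 1, -1), (-1, 13, 5, 1, 6), (-1, 15, -1, 4, 1), (-1, 15, 14, 4, 29), (-1, 17, -43, 5, -86), (-1, 17, -7, 4, -9), (-1, 17, 10, 4, 19), (-1, 19, -9, 4, -11),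
      (-1, 19, 10, 4, 17), (-1, 24, 5, 7, 12), (-1, 25, 43, 7, 86), (-1, 31, -43, 9, -86), (-1, 31, -12, 9, -23), (-1, 32, -21, 9, -40), (-1, 37, -17, 10, -31), (-1, 37, 20, 10, 39), (-1, 39, 4, 11, 9), (-1, 39, 43, 11, 86),
      (-1, 41, -42, 12, -85), (-1, 41, -1, 12, -1), (-1, 45, -43, 13, -86), (-1, 45, 2, 13, 5), (-1, 53, -10, 15, -19), (-1, 53, 43, 15, 86), (-1, 59, -43, 17, -86), (-1, 59, 16, 17, 33), (-1, 67, -24, 19, -47),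
      (-1, 67, 43, 19, 86), (-1, 69, -56, 20, -113), (-1, 69, 13, 20, 27), (-1, 81, -38, 23, -75), (-1, 81, 43, 23, 86), (-1, 95, -52, 27, -103), (-1, 95, 43, 27, 86), (1, 1, -2, 3, 1), (1, 1, -1, 6, 1), (1, 1, -1, 8, -13),
      (1, 1, -1, 10, -27), (1, 1, -1, 12, -41), (1, 1, -1, 14, -55), (1, 1, 0, -8, 43), (1, 1, 0, -6, 43), (1, 1, 0, -4, 43), (1, 1, 0, -2, 43), (1, 1, 0, 0, 43), (1, 1, 0, 2, 43), (1, 1, 0, 4, 43), (1, 1, 0, 6, 43),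
      (1, 1, 0, 8, 43), (1, 1, 0, 10, 43), (1, 1, 0, 12, 43), (1, 1, 0, 14, 43), (1, 1, 1, -8, -13), (1, 1, 1, -6, 1), (1, 1, 1, -4, 15), (1, 1, 2, -3, 1), (1, 1, 3, -2, 1), (1, 1, 21, 0, 43), (1, 2, -3, 3, -10),
      (1, 2, -1, -9, 53), (1, 2, -1, -5, 39), (1, 2, -1, -1, 25), (1, 2, -1, 3, 11), (1, 2, 1, -9, -10), (1, 2, 1, -5, 4), (1, 3, -5, 2, -9), (1, 3, -1, -5, 26), (1, 3, -1, 1, 12), (1, 3, 1, -1, 12), (1, 3, 2, -5, -9),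
      (1, 3, 4, -1, 5), (1, 4, -1, 1, 9), (1, 4, 43, 1, 86), (1, 5, -2, 2, 3), (1, 5, -1, -1, 10), (1, 5, 1, 1, 10), (1, 5, 4, -1, 3), (1, 5, 16, 1, 31), (1, 8, -5, 1, 1), (1, 8, 3, 1, 8), (1, 9, -4, -2, 11), (1, 9, 5, -2, -3),
      (1, 9, 13, 2, 25), (1, 10, -43, 3, -86), (1, 11, -9, 4, -19), (1, 11, -1, 3, 2), (1, 11, 2, 4, 9), (1, 13, -7, 3, -8), (1, 13, -2, 4, -1), (1, 13, 6, 3, 13), (1, 17, -11, 1, -2), (1, 17, -9, 5, -16), (1, 17, 6, 1, 5),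
      (1, 18, -11, 5, -19), (1, 18, 43, 5, 86), (1, 19, -11, 5, -18), (1, 19, 8, 5, 17), (1, 23, -22, 7, -45), (1, 23, 1, 7, 4), (1, 24, -43, 7, -86), (1, 25, -7, 7, -12), (1, 27, -35, 8, -71), (1, 27, -13, 7, -22),
      (1, 27, -8, 8, -15), (1, 27, 14, 7, 27), (1, 32, 43, 9, 86), (1, 38, -43, 11, -86), (1, 38, -5, 11, -9), (1, 46, -3, 13, -5), (1, 46, 43, 13, 86), (1, 52, -43, 15, -86), (1, 52, 9, 15, 19), (1, 55, -49, 16, -99),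
      (1, 55, 6, 16, 13), (1, 60, -17, 17, -33), (1, 60, 43, 17, 86), (1, 74, -31, 21, -61), (1, 74, 43, 21, 86), (1, 83, -63, 24, -127), (1, 83, 20, 24, 41), (1, 88, -45, 25, -89), (1, 88, 43, 25, 86), (1, 102, -59, 29, -117),
      (1, 102, 43, 29, 86)]
  | 1, 1 => [(-1, 1, -1, 10, -27), (-1, 1, -1, 12, -41), (-1, 1, -1, 14, -55), (-1, 1, 0, -15, 43), (-1, 1, 0, -13, 43), (-1, 1, 0, -11, 43), (-1, 1, 1, -4, 15), (-1, 1, 21, 0, 43), (-1, 2, -3, 3, -10), (-1, 2, -1, -9, 53),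
      (-1, 2, -1, -5, 39), (-1, 2, -1, -1, 25), (-1, 2, -1, 3, 11), (-1, 2, -1, 7, -3), (-1, 2, -1, 11, -17), (-1, 3, -1, -5, 26), (-1, 5, -3, 3, -4), (-1, 5, -2, 2, 3), (-1, 8, -7, 3, -13), (-1, 8, -5, 1, 1), (-1, 9, -4, -2, 11),
      (-1, 13, -7, 3, -8), (-1, 15, -4, 1, 1), (-1, 16, -9, 5, -17), (-1, 17, -11, 1, -2), (-1, 17, -9, 5, -16), (-1, 18, -11, 5, -19), (-1, 19, -11, 5, -18), (-1, 22, -13, 7, -27), (-1, 23, -22, 7, -45), (-1, 26, -3, 7, -4),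
      (-1, 27, -35, 8, -71), (-1, 27, -13, 7, -22), (-1, 29, 7, 8, 15), (-1, 55, -49, 16, -99), (-1, 57, -7, 16, -13), (-1, 73, -43, 21, -86), (-1, 74, -31, 21, -61), (-1, 83, -63, 24, -127), (-1, 85, -21, 24, -41),
      (-1, 87, -43, 25, -86), (-1, 88, -45, 25, -89), (-1, 101, -43, 29, -86), (-1, 102, -59, 29, -117), (1, 1, -9, 1, -20), (1, 1, -4, 2, -13), (1, 1, -2, 4, -13), (1, 1, -1, 11, -34), (1, 1, -1, 13, -48), (1, 1, -1, 15, -62),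
      (1, 1, 0, -14, 43), (1, 1, 0, -12, 43), (1, 1, 0, -10, 43), (1, 2, -1, -11, 60), (1, 2, -1, -7, 46), (1, 2, -1, -3, 32), (1, 2, -1, 1, 18), (1, 2, -1, 5, 4), (1, 2, -1, 9, -10), (1, 2, 1, -3, 11), (1, 2, 3, -1, 11),
      (1, 3, -2, 5, -9), (1, 3, 2, -2, 5), (1, 4, 1, -1, 9), (1, 5, -3, -2, 17), (1, 5, -2, -3, 17), (1, 6, 5, 1, 13), (1, 9, -7, 4, -17), (1, 9, -5, 2, -3), (1, 9, -1, 1, 4), (1, 11, -7, 2, -5), (1, 11, -3, 1, 2),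
      (1, 12, 1, -1, 3), (1, 13, -28, 4, -57), (1, 13, -8, 1, -1), (1, 13, -4, 2, -1), (1, 15, 14, 4, 29), (1, 19, -9, 4, -11), (1, 20, -9, 1, -1), (1, 23, -7, -1, 4), (1, 31, -15, 1, -2), (1, 31, -12, 9, -23),
      (1, 32, -21, 9, -40), (1, 33, -19, 10, -39), (1, 37, -17, 10, -31), (1, 41, -42, 12, -85), (1, 43, -14, 0, 1), (1, 43, 0, 12, 1), (1, 66, -43, 19, -86), (1, 67, -24, 19, -47), (1, 69, -56, 20, -113), (1, 71, -14, 20, -27),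
      (1, 80, -43, 23, -86), (1, 81, -38, 23, -75), (1, 94, -43, 27, -86), (1, 95, -52, 27, -103)]

end Pool.Agent.Helper14.TL7
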