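import Pool.Agent.Helper14.TL7.M_Cert
import Pool.Agent.Helper14.TL7.M_Opm
import Pool.Agent.Helper84.S7.D1
import Pool.Agent.Helper8.TL.M_EDGE7
import Pool.Agent.Helper70.TLE.M_Hk
import Pool.Agent.Helper68.TLE.M_HkS
import Pool.Agent.Helper93.TL7.M_Tre
import Pool.Agent.Helper93.TL7.M_Rel
import Pool.Agent.Helper93.TL7.M_Uni
import Pool.Agent.Helper93.TL7.M_HkB
import Pool.Agent.Helper93.TL7.M_HkF
import Pool.Agent.Helper93.TL7.M_HRa
import Pool.Agent.Helper93.TL7.M_HRb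
import Pool.Agent.Helper93.TL7.M_HRc
import Pool.Agent.Helper93.TL7.M_HRd
import Pool.Agent.Helper45.TL7.M_Ex
import Pool.Agent.Helper9.TL7.M_Ldg
import Pool.Agent.Helper71.TL7.M_Omg
import Pool.Agent.Helper42.TL7.M_Ld
import Pool.Agent.Helper2.TL7.M_Led
import Pool.Agent.Helper38.TL7.M_Stp
import Pool.Agent.Helper85.TL7.M_Itr
import Pool.Agent.Helper3.TL7.M_Trf
import Pool.Agent.Helper1.TL7.M_Tri
import Pool.Agent.Helper89.TL7.M_Lifp
import Pool.Agent.Helper61.TL7.M_Lif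
import Pool.Agent.Helper86.TL7.M_Unb
import Pool.Agent.Helper67.TL7.M_Cnt
import Pool.Agent.Helper11.TL7.M_Cert
import Pool.Agent.Helper14.TL7.M_LBof

/-!
# Project TL: the lower bound for levels `4·7^n`
-/

set_option autoImplicit false

namespace Pool.Agent.Helper14.TL7

open Pool.Agent.Helper76.S7 (S7PlA S7PlU)
open Pool.Agent.Helper76.TL7 (EEdg7)
open Pool.Agent.Helper93.TLE (LBE ddE7)

theorem edgT : EEdg7 := Pool.Agent.Helper8.TL.hEdgE7 Pool.Agent.Helper84.S7.plA Pool.Agent.Helper74.S7.hPlU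

theorem treT : TTre := Pool.Agent.Helper93.TL7.hTre edgT Pool.Agent.Helper84.S7.plA

theorem relT : TRel := Pool.Agent.Helper93.TL7.hRel treT

theorem exT : TEx := Pool.Agent.Helper45.TL7.hEx Pool.Agent.Helper84.S7.trm Pool.Agent.Helper84.S7.plA edgT
  Pool.Agent.Helper55.CV.hFex Pool.Agent.Helper38.CV.hFar

theorem uniT : TUni := Pool.Agent.Helper93.TL7.hUni edgT Pool.Agent.Helper38.CV.hFar

theorem lifpT : TLifp := Pool.Agent.Helper89.TL7.hLifp Pool.Agent.Helper84.S7.trm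

theorem lifT : TLif := Pool.Agent.Helper61.TL7.hLif relT lifpT exT uniT

theorem hkBT : THkB := Pool.Agent.Helper93.TL7.hHkB Pool.Agent.Helper70.TLE.hHk
  (Pool.Agent.Helper68.TLE.hHkS Pool.Agent.Helper70.TLE.hHk)

theorem hkFT : THkF := Pool.Agent.Helper93.TL7.hHkF hkBT edgT Pool.Agent.Helper84.S7.plA

theorem stpT : TStp := by
  have trm := Pool.Agent.Helper84.S7.trm
  exact Pool.Agent.Helper38.TL7.hStp hkBT
    (Pool.Agent.Helper93.TL7.hHk3 hkFT treT trm) (Pool.Agent.Helper93.TL7.hHk5 hkFT treT trm)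
    (Pool.Agent.Helper93.TL7.hHk11 hkFT treT trm) (Pool.Agent.Helper93.TL7.hHk13 hkFT treT trm)
    (Pool.Agent.Helper93.TL7.hHk17 hkFT treT trm) (Pool.Agent.Helper93.TL7.hHk19 hkFT treT trm)
    (Pool.Agent.Helper93.TL7.hHk29 hkFT treT trm) (Pool.Agent.Helper93.TL7.hHk37 hkFT treT trm)
    (Pool.Agent.Helper93.TL7.hHk43 hkFT treT trm) Pool.Agent.Helper84.S7.opm hCeG Pool.Agent.Helper84.S7.plA

theorem triT : TTri := by
  have trm := Pool.Agent.Helper84.S7.trm
  have low0 := Pool.Agent.Helper84.S7.low0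
  have nfa := Pool.Agent.Helper84.S7.nfa
  have exp := Pool.Agent.Helper84.S7.exp7
  have bb := Pool.Agent.Helper84.S7.bb
  have opm := Pool.Agent.Helper84.S7.opm
  have opmE := hOpmE trm
  have ldg := Pool.Agent.Helper9.TL7.hLdg trm low0 nfa exp
  have omg := Pool.Agent.Helper71.TL7.hOmg trm low0 nfa exp
  have ldU := Pool.Agent.Helper42.TL7.hLdU low0 opm opmE ldg hCeG hCeU
  have ldV := Pool.Agent.Helper42.TL7.hLdV low0 opm opmE ldg hCeG Pool.Agent.Helper11.TL7.hCeV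
  have om := Pool.Agent.Helper42.TL7.hOm low0 opm opmE omg hCeG hCeO
  have led := Pool.Agent.Helper2.TL7.hLed trm low0 nfa Pool.Agent.Helper84.S7.lw1 bb
  have itr := Pool.Agent.Helper85.TL7.hItr relT stpT low0 ldU ldV om
  exact Pool.Agent.Helper1.TL7.hTri low0 bb led exT itr (Pool.Agent.Helper3.TL7.hTrf low0 bb)

theorem cntT : TCnt := Pool.Agent.Helper67.TL7.hCnt

/-- The lower bound for levels `4·7^n`. -/
theorem lb7 : LBE 7 3 ddE7 :=
  hLBof triT lifT Pool.Agent.Helper86.TL7.hUnb cntT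

end Pool.Agent.Helper14.TL7
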