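import Pool.Agent.Helper4.S7.Tm

/-!
# Project TL (levels `4·7^n`): rows of `T_17`, `T_19`, `T_29`

A term `(k, a, b, c, d)` stands for `k` times the operator of `(a b; 7c d)` (`Helper4/S7/Tm.lean`; `mulL`, `sclL`, `mmL`, `idL`, `Gd` of W7 are used unchanged, all signs are coefficients). `F0(g) = eps(g) (G(g∞) - G(g0))`,
`F1(g) = eps(g) (G(g½) - G(g0))`, `k = F0 + F0∘T - F1` (path from `1/2` to `1`). The rows of `T_l` are computed with the even residues `-(l-1), ..., l-1`.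
-/

set_option autoImplicit false

namespace Pool.Agent.Helper14.TL7

open Pool.Agent.Helper4.S7 (Tm mulT mulL sclL Gd mmL idL)

/-- The rows of `T_17`: `F_i(T_17 G) = ∑_f (T17L i f) F_f(G)`. -/
def T17L : Fin 2 → Fin 2 → List Tm
  | 0, 0 => [(-1, 1, -3, 1, -4), (-1, 1, -1, 3, -4), (-1, 1, -1, 5, -18), (-1, 1, 0, -3, 17), (-1, 1, 0, -1, 17), (-1, 1, 0, 1, 17), (-1, 1, 0, 3, 17), (-1, 1, 0, 5, 17), (-1, 1, 1, -3, -4), (-1, 2, -1, -1, 12), (-1, 4, -3, 1, -1),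
      (-1, 4, -1, -1, 6), (-1, 4, 1, 1, 6), (-1, 4, 3, -1, -1), (-1, 6, -5, 1, -3), (-1, 6, 1, 1, 4), (-1, 9, -4, -1, 5), (-1, 9, 5, -1, -2), (-1, 17, -11, 0, 1), (-1, 17, -9, 0, 1), (-1, 17, -7, 0, 1), (-1, 17, -5, 0, 1),
      (-1, 17, -3, 0, 1), (-1, 17, -1, 0, 1), (-1, 17, 1, 0, 1), (-1, 17, 3, 0, 1), (-1, 17, 5, 0, 1), (1, 1, -1, 2, 3), (1, 1, -1, 4, -11), (1, 1, -1, 6, -25), (1, 1, 0, -2, 17), (1, 1, 0, 0, 17), (1, 1, 0, 2, 17),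
      (1, 1, 0, 4, 17), (1, 1, 0, 6, 17), (1, 1, 1, -2, 3), (1, 1, 2, -1, 3), (1, 2, -3, 1, -2), (1, 2, -1, -3, 19), (1, 2, -1, 1, 5), (1, 2, 1, -3, -2), (1, 2, 3, -1, -2), (1, 3, -2, 1, 1), (1, 3, -1, -1, 8), (1, 3, 1, 1, 8),
      (1, 3, 2, -1, 1), (1, 17, -10, 0, 1), (1, 17, -8, 0, 1), (1, 17, -6, 0, 1), (1, 17, -4, 0, 1), (1, 17, -2, 0, 1), (1, 17, 0, 0, 1), (1, 17, 2, 0, 1), (1, 17, 4, 0, 1)]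
  | 0, 1 => [(-1, 1, -1, 4, -11), (-1, 1, -1, 6, -25), (-1, 1, 0, -5, 17), (-1, 1, 2, -1, 3), (-1, 2, -1, -3, 19), (-1, 2, -1, 1, 5), (-1, 6, -1, -1, 4), (-1, 9, -5, 1, -2), (-1, 17, -10, 0, 1), (-1, 17, -8, 0, 1), (-1, 17, -6, 0, 1),
      (1, 1, -3, 1, -4), (1, 1, -1, 5, -18), (1, 1, 0, -6, 17), (1, 1, 0, -4, 17), (1, 2, -1, -1, 12), (1, 2, -1, 3, -2), (1, 6, -5, 1, -3), (1, 9, -4, -1, 5), (1, 17, -11, 0, 1), (1, 17, -9, 0, 1), (1, 17, -7, 0, 1)]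
  | 1, 0 => [(-1, 1, -1, 3, -4), (-1, 1, -1, 5, -18), (-1, 1, 0, -3, 17), (-1, 1, 0, -1, 17), (-1, 1, 0, 1, 17), (-1, 1, 0, 3, 17), (-1, 1, 0, 5, 17), (-1, 1, 1, -3, -4), (-1, 1, 8, 0, 17), (-1, 2, -5, 1, -9), (-1, 2, -1, -1, 12),
      (-1, 2, 1, -1, 5), (-1, 3, -17, 1, -34), (-1, 4, -1, -1, 6), (-1, 4, 1, 1, 6), (-1, 4, 3, -1, -1), (-1, 8, -7, 1, -4), (-1, 8, 1, 1, 3), (-1, 9, -7, 2, -9), (-1, 9, -4, -1, 5), (-1, 9, 2, 2, 5), (-1, 9, 5, -1, -2),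
      (-1, 11, 17, 3, 34), (-1, 13, -8, 1, -3), (-1, 13, 5, 1, 4), (-1, 17, -17, 5, -34), (-1, 17, -11, 0, 1), (-1, 17, 0, 5, 1), (-1, 17, 6, 0, 1), (-1, 25, -8, 7, -15), (-1, 25, 17, 7, 34), (-1, 27, -22, 8, -45),
      (-1, 27, 5, 8, 11), (-1, 39, -22, 11, -43), (-1, 39, 17, 11, 34), (1, 1, -4, 1, -11), (1, 1, -1, 2, 3), (1, 1, -1, 4, -11), (1, 1, -1, 6, -25), (1, 1, 0, -2, 17), (1, 1, 0, 0, 17), (1, 1, 0, 2, 17), (1, 1, 0, 4, 17),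
      (1, 1, 0, 6, 17), (1, 1, 1, -2, 3), (1, 1, 2, -1, 3), (1, 2, -1, -3, 19), (1, 2, -1, 1, 5), (1, 2, 1, -3, -2), (1, 3, -1, -1, 8), (1, 3, 1, 1, 8), (1, 3, 2, -1, 1), (1, 4, 17, 1, 34), (1, 5, -1, 1, 2), (1, 5, 4, 1, 9),
      (1, 9, -5, 1, -2), (1, 9, 4, 1, 5), (1, 10, -17, 3, -34), (1, 10, -7, 3, -13), (1, 11, -5, 3, -8), (1, 13, -15, 4, -31), (1, 13, -7, 3, -10), (1, 13, -2, 4, -3), (1, 13, 6, 3, 11), (1, 18, -1, 5, -1), (1, 18, 17, 5, 34),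
      (1, 24, -17, 7, -34), (1, 24, 7, 7, 15), (1, 32, -15, 9, -29), (1, 32, 17, 9, 34)]
  | 1, 1 => [(-1, 1, -4, 1, -11), (-1, 1, -1, 4, -11), (-1, 1, -1, 6, -25), (-1, 1, 0, -5, 17), (-1, 2, -1, -3, 19), (-1, 2, -1, 1, 5), (-1, 6, 1, 1, 4), (-1, 8, -5, 3, -11), (-1, 9, -5, 1, -2), (-1, 10, -7, 3, -13), (-1, 11, -5, 3, -8),
      (-1, 13, -15, 4, -31), (-1, 13, -7, 3, -10), (-1, 15, 1, 4, 3), (-1, 31, -17, 9, -34), (-1, 32, -15, 9, -29), (1, 1, -1, 5, -18), (1, 1, 0, -6, 17), (1, 1, 0, -4, 17), (1, 1, 8, 0, 17), (1, 2, -1, -1, 12), (1, 2, -1, 3, -2),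
      (1, 5, -3, 2, -5), (1, 8, -7, 1, -4), (1, 9, -7, 2, -9), (1, 9, -4, -1, 5), (1, 13, -8, 1, -3), (1, 17, -11, 0, 1), (1, 27, -22, 8, -45), (1, 29, -6, 8, -11), (1, 38, -17, 11, -34), (1, 39, -22, 11, -43)]

/-- The rows of `T_19`: `F_i(T_19 G) = ∑_f (T19L i f) F_f(G)`. -/
def T19L : Fin 2 → Fin 2 → List Tm
  | 0, 0 => [(-1, 1, -3, 1, -2), (-1, 1, -2, 2, -9), (-1, 1, -1, 3, -2), (-1, 1, -1, 5, -16), (-1, 1, 0, -3, 19), (-1, 1, 0, -1, 19), (-1, 1, 0, 1, 19), (-1, 1, 0, 3, 19), (-1, 1, 0, 5, 19), (-1, 1, 1, -3, -2), (-1, 1, 3, -1, -2),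
      (-1, 2, -3, 1, -1), (-1, 2, -1, -3, 20), (-1, 2, -1, 1, 6), (-1, 2, 1, -3, -1), (-1, 2, 3, -1, -1), (-1, 3, -1, -2, 11), (-1, 3, 2, -2, -3), (-1, 10, -7, 1, -3), (-1, 10, 3, 1, 4), (-1, 19, -11, 0, 1), (-1, 19, -9, 0, 1),
      (-1, 19, -7, 0, 1), (-1, 19, -5, 0, 1), (-1, 19, -3, 0, 1), (-1, 19, -1, 0, 1), (-1, 19, 1, 0, 1), (-1, 19, 3, 0, 1), (-1, 19, 5, 0, 1), (1, 1, -1, 4, -9), (1, 1, -1, 6, -23), (1, 1, 0, -4, 19), (1, 1, 0, -2, 19),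
      (1, 1, 0, 0, 19), (1, 1, 0, 2, 19), (1, 1, 0, 4, 19), (1, 1, 0, 6, 19), (1, 1, 1, -4, -9), (1, 1, 1, -2, 5), (1, 2, -1, -5, 27), (1, 2, -1, -1, 13), (1, 2, 1, -5, -8), (1, 3, -4, 1, -3), (1, 3, -1, 1, 4), (1, 4, -5, 1, -4),
      (1, 4, -1, 1, 3), (1, 5, -3, -1, 8), (1, 5, 2, -1, 1), (1, 8, -3, -1, 5), (1, 8, 5, -1, -2), (1, 19, -12, 0, 1), (1, 19, -10, 0, 1), (1, 19, -8, 0, 1), (1, 19, -6, 0, 1), (1, 19, -4, 0, 1), (1, 19, -2, 0, 1),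
      (1, 19, 0, 0, 1), (1, 19, 2, 0, 1), (1, 19, 4, 0, 1), (1, 19, 6, 0, 1)]
  | 0, 1 => [(-1, 1, -1, 6, -23), (-1, 1, 0, -5, 19), (-1, 1, 1, -2, 5), (-1, 2, -1, -5, 27), (-1, 2, -1, -1, 13), (-1, 2, -1, 3, -1), (-1, 3, -4, 1, -3), (-1, 3, -2, 2, -3), (-1, 4, -5, 1, -4), (-1, 5, -3, -1, 8), (-1, 8, -3, -1, 5),
      (-1, 10, -3, -1, 4), (-1, 19, -12, 0, 1), (-1, 19, -10, 0, 1), (-1, 19, -8, 0, 1), (1, 1, -2, 2, -9), (1, 1, -1, 5, -16), (1, 1, 0, -6, 19), (1, 2, -1, -3, 20), (1, 2, -1, 1, 6), (1, 2, -1, 5, -8), (1, 3, -1, -2, 11),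
      (1, 3, 1, -1, 4), (1, 4, 1, -1, 3), (1, 5, -2, 1, 1), (1, 8, -5, 1, -2), (1, 10, -7, 1, -3), (1, 19, -11, 0, 1), (1, 19, -9, 0, 1), (1, 19, -7, 0, 1)]
  | 1, 0 => [(-1, 1, -2, 2, -9), (-1, 1, -1, 3, -2), (-1, 1, -1, 5, -16), (-1, 1, 0, -3, 19), (-1, 1, 0, -1, 19), (-1, 1, 0, 1, 19), (-1, 1, 0, 3, 19), (-1, 1, 0, 5, 19), (-1, 1, 1, -3, -2), (-1, 2, -7, 1, -15), (-1, 2, -1, -3, 20),
      (-1, 2, -1, 1, 6), (-1, 2, 1, -3, -1), (-1, 3, -19, 1, -38), (-1, 3, -1, -2, 11), (-1, 3, 2, -2, -3), (-1, 5, -6, 2, -13), (-1, 5, -2, 1, 1), (-1, 5, -1, 2, 1), (-1, 6, -1, 1, 2), (-1, 6, 5, 1, 9), (-1, 8, -5, 1, -2),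
      (-1, 8, 3, 1, 5), (-1, 10, 1, 3, 4), (-1, 11, 19, 3, 38), (-1, 13, -16, 4, -33), (-1, 13, -3, 4, -5), (-1, 17, -19, 5, -38), (-1, 17, -2, 5, -3), (-1, 25, -6, 7, -11), (-1, 25, 19, 7, 38), (-1, 39, -20, 11, -39),
      (-1, 39, 19, 11, 38), (1, 1, -4, 1, -9), (1, 1, -1, 4, -9), (1, 1, -1, 6, -23), (1, 1, 0, -4, 19), (1, 1, 0, -2, 19), (1, 1, 0, 0, 19), (1, 1, 0, 2, 19), (1, 1, 0, 4, 19), (1, 1, 0, 6, 19), (1, 1, 1, -4, -9),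
      (1, 1, 1, -2, 5), (1, 1, 2, -1, 5), (1, 1, 9, 0, 19), (1, 2, -1, -5, 27), (1, 2, -1, -1, 13), (1, 2, 1, -5, -8), (1, 2, 1, -1, 6), (1, 3, -1, 1, 4), (1, 4, -1, 1, 3), (1, 4, 19, 1, 38), (1, 5, -3, -1, 8), (1, 5, 2, -1, 1),
      (1, 5, 8, 1, 15), (1, 8, -7, 3, -16), (1, 8, 1, 3, 5), (1, 9, -2, 2, -1), (1, 9, 7, 2, 13), (1, 10, -19, 3, -38), (1, 11, -3, 3, -4), (1, 18, 1, 5, 3), (1, 18, 19, 5, 38), (1, 24, -19, 7, -38), (1, 24, 5, 7, 11),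
      (1, 27, -23, 8, -47), (1, 27, 4, 8, 9), (1, 32, -13, 9, -25), (1, 32, 19, 9, 38), (1, 46, -27, 13, -53), (1, 46, 19, 13, 38)]
  | 1, 1 => [(-1, 1, -1, 6, -23), (-1, 1, 0, -5, 19), (-1, 1, 1, -2, 5), (-1, 1, 9, 0, 19), (-1, 2, -1, -5, 27), (-1, 2, -1, -1, 13), (-1, 2, -1, 3, -1), (-1, 2, 1, -1, 6), (-1, 3, -2, 2, -3), (-1, 5, -3, -1, 8), (-1, 8, -7, 3, -16),
      (-1, 9, -4, 1, -1), (-1, 10, -3, -1, 4), (-1, 13, -4, 3, -5), (-1, 27, -23, 8, -47), (-1, 29, -5, 8, -9), (-1, 31, -19, 9, -38), (-1, 32, -13, 9, -25), (-1, 45, -19, 13, -38), (-1, 46, -27, 13, -53), (1, 1, -2, 2, -9),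
      (1, 1, -1, 5, -16), (1, 1, 0, -6, 19), (1, 2, -1, -3, 20), (1, 2, -1, 1, 6), (1, 2, -1, 5, -8), (1, 3, -1, -2, 11), (1, 4, 1, -1, 3), (1, 5, -2, 1, 1), (1, 8, -5, 1, -2), (1, 13, -16, 4, -33), (1, 15, -7, 1, -2),
      (1, 15, 2, 4, 5), (1, 19, -6, 0, 1), (1, 38, -19, 11, -38), (1, 39, -20, 11, -39)]

/-- The rows of `T_29`: `F_i(T_29 G) = ∑_f (T29L i f) F_f(G)`. -/
def T29L : Fin 2 → Fin 2 → List Tm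
  | 0, 0 => [(-1, 1, -2, 2, 1), (-1, 1, -1, 5, -6), (-1, 1, -1, 7, -20), (-1, 1, -1, 9, -34), (-1, 1, 0, -5, 29), (-1, 1, 0, -3, 29), (-1, 1, 0, -1, 29), (-1, 1, 0, 1, 29), (-1, 1, 0, 3, 29), (-1, 1, 0, 5, 29), (-1, 1, 0, 7, 29),
      (-1, 1, 0, 9, 29), (-1, 1, 1, -5, -6), (-1, 1, 1, -3, 8), (-1, 1, 2, -2, 1), (-1, 2, -5, 1, -3), (-1, 2, -1, -5, 32), (-1, 2, -1, -1, 18), (-1, 2, 1, -5, -3), (-1, 3, -5, 1, -2), (-1, 3, -4, 2, -9), (-1, 3, -1, -4, 19),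
      (-1, 3, -1, 2, 5), (-1, 3, 2, -4, -9), (-1, 3, 5, -1, -2), (-1, 5, -7, 1, -4), (-1, 5, -2, 1, 3), (-1, 6, -5, 1, -1), (-1, 6, -1, -1, 6), (-1, 6, 1, 1, 6), (-1, 6, 5, -1, -1), (-1, 8, -5, -1, 8), (-1, 8, 3, -1, 1),
      (-1, 16, -11, 1, -3), (-1, 16, 5, 1, 4), (-1, 17, -8, -1, 5), (-1, 17, 9, -1, -2), (-1, 29, -19, 0, 1), (-1, 29, -17, 0, 1), (-1, 29, -15, 0, 1), (-1, 29, -13, 0, 1), (-1, 29, -11, 0, 1), (-1, 29, -9, 0, 1),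
      (-1, 29, -7, 0, 1), (-1, 29, -5, 0, 1), (-1, 29, -3, 0, 1), (-1, 29, -1, 0, 1), (-1, 29, 1, 0, 1), (-1, 29, 3, 0, 1), (-1, 29, 5, 0, 1), (-1, 29, 7, 0, 1), (-1, 29, 9, 0, 1), (1, 1, -4, 1, 1), (1, 1, -2, 3, -13),
      (1, 1, -1, 4, 1), (1, 1, -1, 6, -13), (1, 1, -1, 8, -27), (1, 1, -1, 10, -41), (1, 1, 0, -6, 29), (1, 1, 0, -4, 29), (1, 1, 0, -2, 29), (1, 1, 0, 0, 29), (1, 1, 0, 2, 29), (1, 1, 0, 4, 29), (1, 1, 0, 6, 29),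
      (1, 1, 0, 8, 29), (1, 1, 0, 10, 29), (1, 1, 1, -6, -13), (1, 1, 1, -4, 1), (1, 1, 4, -1, 1), (1, 2, -1, -7, 39), (1, 2, -1, -3, 25), (1, 2, -1, 1, 11), (1, 2, 1, -7, -10), (1, 2, 1, -3, 4), (1, 2, 3, -1, 4),
      (1, 3, -1, -1, 12), (1, 3, 1, 1, 12), (1, 4, -3, 1, 2), (1, 4, -1, -1, 9), (1, 4, 1, 1, 9), (1, 4, 3, -1, 2), (1, 5, -3, -1, 10), (1, 5, 2, -1, 3), (1, 9, -8, 1, -3), (1, 9, 1, 1, 4), (1, 10, -7, 1, -2), (1, 10, -3, -1, 5),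
      (1, 10, 3, 1, 5), (1, 10, 7, -1, -2), (1, 29, -18, 0, 1), (1, 29, -16, 0, 1), (1, 29, -14, 0, 1), (1, 29, -12, 0, 1), (1, 29, -10, 0, 1), (1, 29, -8, 0, 1), (1, 29, -6, 0, 1), (1, 29, -4, 0, 1), (1, 29, -2, 0, 1),
      (1, 29, 0, 0, 1), (1, 29, 2, 0, 1), (1, 29, 4, 0, 1), (1, 29, 6, 0, 1), (1, 29, 8, 0, 1)]
  | 0, 1 => [(-1, 1, -2, 3, -13), (-1, 1, -1, 8, -27), (-1, 1, -1, 10, -41), (-1, 1, 0, -9, 29), (-1, 1, 0, -7, 29), (-1, 2, -1, -7, 39), (-1, 2, -1, -3, 25), (-1, 2, -1, 1, 11), (-1, 2, -1, 5, -3), (-1, 2, 3, -1, 4), (-1, 3, -2, 4, -9),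
      (-1, 3, 1, -2, 5), (-1, 5, -3, -1, 10), (-1, 5, 2, -1, 3), (-1, 8, -3, 1, 1), (-1, 9, -8, 1, -3), (-1, 16, -5, -1, 4), (-1, 17, -9, 1, -2), (-1, 29, -18, 0, 1), (-1, 29, -16, 0, 1), (-1, 29, -14, 0, 1), (-1, 29, -12, 0, 1),
      (-1, 29, -10, 0, 1), (1, 1, -1, 7, -20), (1, 1, -1, 9, -34), (1, 1, 0, -10, 29), (1, 1, 0, -8, 29), (1, 1, 1, -3, 8), (1, 2, -5, 1, -3), (1, 2, -1, -5, 32), (1, 2, -1, -1, 18), (1, 2, -1, 3, 4), (1, 2, -1, 7, -10),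
      (1, 3, -4, 2, -9), (1, 3, -1, -4, 19), (1, 5, -7, 1, -4), (1, 5, -2, 1, 3), (1, 8, -5, -1, 8), (1, 9, -1, -1, 4), (1, 16, -11, 1, -3), (1, 17, -8, -1, 5), (1, 29, -19, 0, 1), (1, 29, -17, 0, 1), (1, 29, -15, 0, 1),
      (1, 29, -13, 0, 1), (1, 29, -11, 0, 1)]
  | 1, 0 => [(-1, 1, -2, 2, 1), (-1, 1, -1, 5, -6), (-1, 1, -1, 7, -20), (-1, 1, -1, 9, -34), (-1, 1, 0, -5, 29), (-1, 1, 0, -3, 29), (-1, 1, 0, -1, 29), (-1, 1, 0, 1, 29), (-1, 1, 0, 3, 29), (-1, 1, 0, 5, 29), (-1, 1, 0, 7, 29),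
      (-1, 1, 0, 9, 29), (-1, 1, 1, -5, -6), (-1, 1, 1, -3, 8), (-1, 1, 2, -2, 1), (-1, 1, 3, -1, 8), (-1, 1, 14, 0, 29), (-1, 2, -9, 1, -17), (-1, 2, -1, -5, 32), (-1, 2, -1, -1, 18), (-1, 2, 1, -5, -3), (-1, 3, -29, 1, -58),
      (-1, 3, -4, 2, -9), (-1, 3, -1, -4, 19), (-1, 3, -1, 2, 5), (-1, 3, 2, -4, -9), (-1, 5, -6, 2, -11), (-1, 5, -2, 1, 3), (-1, 5, -1, 2, 3), (-1, 6, 1, 1, 6), (-1, 6, 7, 1, 13), (-1, 8, -5, -1, 8), (-1, 8, 3, -1, 1),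
      (-1, 11, -4, 3, -5), (-1, 11, 29, 3, 58), (-1, 12, -11, 1, -4), (-1, 12, 1, 1, 3), (-1, 16, -15, 5, -31), (-1, 16, -9, 3, -10), (-1, 16, 1, 5, 4), (-1, 16, 7, 3, 11), (-1, 17, -29, 5, -58), (-1, 17, -12, 5, -23),
      (-1, 17, -8, -1, 5), (-1, 17, 9, -1, -2), (-1, 18, -7, 5, -12), (-1, 25, 4, 7, 9), (-1, 25, 29, 7, 58), (-1, 27, -28, 8, -57), (-1, 27, -1, 8, -1), (-1, 29, -19, 0, 1), (-1, 29, 10, 0, 1), (-1, 31, -29, 9, -58),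
      (-1, 31, 2, 9, 5), (-1, 39, -10, 11, -19), (-1, 39, 29, 11, 58), (-1, 53, -24, 15, -47), (-1, 53, 29, 15, 58), (-1, 55, -42, 16, -85), (-1, 55, 13, 16, 27), (-1, 67, -38, 19, -75), (-1, 67, 29, 19, 58), (1, 1, -6, 1, -13),
      (1, 1, -2, 3, -13), (1, 1, -1, 4, 1), (1, 1, -1, 6, -13), (1, 1, -1, 8, -27), (1, 1, -1, 10, -41), (1, 1, 0, -6, 29), (1, 1, 0, -4, 29), (1, 1, 0, -2, 29), (1, 1, 0, 0, 29), (1, 1, 0, 2, 29), (1, 1, 0, 4, 29),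
      (1, 1, 0, 6, 29), (1, 1, 0, 8, 29), (1, 1, 0, 10, 29), (1, 1, 1, -6, -13), (1, 1, 1, -4, 1), (1, 2, -1, -7, 39), (1, 2, -1, -3, 25), (1, 2, -1, 1, 11), (1, 2, 1, -7, -10), (1, 2, 1, -3, 4), (1, 2, 3, -1, 4),
      (1, 3, -1, -1, 12), (1, 3, 1, 1, 12), (1, 3, 2, -1, 5), (1, 4, -1, -1, 9), (1, 4, 1, 1, 9), (1, 4, 3, -1, 2), (1, 4, 29, 1, 58), (1, 5, -3, -1, 10), (1, 5, 2, -1, 3), (1, 5, 8, 1, 17), (1, 8, -9, 3, -20), (1, 8, -3, 1, 1),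
      (1, 8, -1, 3, 1), (1, 8, 5, 1, 8), (1, 9, -4, 2, -3), (1, 9, 5, 2, 11), (1, 10, -29, 3, -58), (1, 10, 1, 3, 5), (1, 11, -6, 2, -5), (1, 11, 5, 2, 9), (1, 13, -21, 4, -43), (1, 13, -8, 4, -15), (1, 15, -8, 4, -13),
      (1, 15, 7, 4, 15), (1, 18, 29, 5, 58), (1, 23, -10, 6, -17), (1, 23, 13, 6, 25), (1, 24, -29, 7, -58), (1, 24, -5, 7, -9), (1, 32, -3, 9, -5), (1, 32, 29, 9, 58), (1, 38, -29, 11, -58), (1, 38, 9, 11, 19),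
      (1, 41, -35, 12, -71), (1, 41, 6, 12, 13), (1, 46, -17, 13, -33), (1, 46, 29, 13, 58), (1, 60, -31, 17, -61), (1, 60, 29, 17, 58)]
  | 1, 1 => [(-1, 1, -2, 3, -13), (-1, 1, -1, 8, -27), (-1, 1, -1, 10, -41), (-1, 1, 0, -9, 29), (-1, 1, 0, -7, 29), (-1, 2, -1, -7, 39), (-1, 2, -1, -3, 25), (-1, 2, -1, 1, 11), (-1, 2, -1, 5, -3), (-1, 3, -2, 4, -9), (-1, 3, 1, -2, 5),
      (-1, 5, -3, -1, 10), (-1, 6, -1, -1, 6), (-1, 8, -9, 3, -20), (-1, 8, -3, 1, 1), (-1, 11, -6, 2, -5), (-1, 13, -21, 4, -43), (-1, 13, -8, 4, -15), (-1, 13, -6, 1, -1), (-1, 13, -2, 3, -1), (-1, 15, -8, 4, -13),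
      (-1, 15, 7, 4, 15), (-1, 16, -5, -1, 4), (-1, 19, -12, 6, -25), (-1, 23, -10, 6, -17), (-1, 41, -35, 12, -71), (-1, 43, -7, 12, -13), (-1, 45, -29, 13, -58), (-1, 46, -17, 13, -33), (-1, 59, -29, 17, -58),
      (-1, 60, -31, 17, -61), (1, 1, -1, 7, -20), (1, 1, -1, 9, -34), (1, 1, 0, -10, 29), (1, 1, 0, -8, 29), (1, 1, 1, -3, 8), (1, 1, 14, 0, 29), (1, 2, -1, -5, 32), (1, 2, -1, -1, 18), (1, 2, -1, 3, 4), (1, 2, -1, 7, -10),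
      (1, 3, -1, -4, 19), (1, 5, -4, 3, -11), (1, 5, -2, 1, 3), (1, 8, -5, -1, 8), (1, 10, -3, -1, 5), (1, 12, -11, 1, -4), (1, 16, -15, 5, -31), (1, 16, -9, 3, -10), (1, 17, -12, 5, -23), (1, 17, -8, -1, 5), (1, 18, -7, 5, -12),
      (1, 19, -3, 5, -4), (1, 27, -28, 8, -57), (1, 29, -19, 0, 1), (1, 29, 0, 8, 1), (1, 52, -29, 15, -58), (1, 53, -24, 15, -47), (1, 55, -42, 16, -85), (1, 57, -14, 16, -27), (1, 66, -29, 19, -58), (1, 67, -38, 19, -75)]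

end Pool.Agent.Helper14.TL7
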