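import Pool.Agent.Helper14.TL7.Lists1
import Pool.Agent.Helper14.TL7.Lists2
import Pool.Agent.Helper14.TL7.Lists3
import Pool.Agent.Helper14.TL7.Lists4

/-!
# Project TL (levels `4·7^n`): the lists of the operators

A term `(k, a, b, c, d)` stands for `k` times the operator of `(a b; 7c d)` (`Helper4/S7/Tm.lean`; `mulL`, `sclL`, `mmL`, `idL`, `Gd` of W7 are used unchanged, all signs are coefficients). `F0(g) = eps(g) (G(g∞) - G(g0))`,
`F1(g) = eps(g) (G(g½) - G(g0))`, `k = F0 + F0∘T - F1` (path from `1/2` to `1`). The rows of `T_l` are computed with the even residues `-(l-1), ..., l-1`.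
-/

set_option autoImplicit false

namespace Pool.Agent.Helper14.TL7

open Pool.Agent.Helper4.S7 (Tm mulT mulL sclL Gd mmL idL)

/-- The rows of `T_13 + 5 T_5`. -/
def TcL (i f : Fin 2) : List Tm := T13L i f ++ sclL 5 (T5L i f)

/-- The rows of `U = T_11 - T_3² - 3`. -/
def ULE (i f : Fin 2) : List Tm := T11L i f ++ sclL (-1) (mmL T3L T3L i f) ++ idL (-3) i f

/-- The rows of `V = 5 + T_11 + 5 T_29 + 4 T_37 + 5 T_43 + T_3 (T_13 + 5 T_5)`. -/
def VLE (i f : Fin 2) : List Tm :=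
  idL 5 i f ++ T11L i f ++ sclL 5 (T29L i f) ++ sclL 4 (T37L i f) ++ sclL 5 (T43L i f) ++ mmL T3L TcL i f

/-- The first row of the operator `O_c` at the origin: `1`, `T_3 + 1`, `T_5 + 4 T_3`, `3 + 2 T_11 + T_13 + T_17 + 5 T_19 + T_3 T_5`. -/
def OLE (c : Fin 4) (f : Fin 2) : List Tm :=
  if c = 0 then idL 1 0 f
  else if c = 1 then T3L 0 f ++ idL 1 0 f
  else if c = 2 then T5L 0 f ++ sclL 4 (T3L 0 f)
  else idL 3 0 f ++ sclL 2 (T11L 0 f) ++ T13L 0 f ++ T17L 0 f ++ sclL 5 (T19L 0 f) ++ mmL T3L T5L 0 f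

/-- A list minus multiples of the relations. -/
def sbE (L : Fin 2 → List Tm) (M : Fin 2 → List Tm) (f : Fin 2) : List Tm :=
  L f ++ sclL (-1) (mulL (M 0) (relE 0 f)) ++ sclL (-1) (mulL (M 1) (relE 1 f))

/-- `U` minus multiples of the relations. -/
def BUE (i : Fin 2) : Fin 2 → List Tm := sbE (ULE i) (MUE i)

/-- `V` minus multiples of the relations. -/
def BVE (i : Fin 2) : Fin 2 → List Tm := sbE (VLE i) (MVE i)

/-- `O_c` minus multiples of the relations. -/
def BOE (c : Fin 4) : Fin 2 → List Tm := sbE (OLE c) (MOE c)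

end Pool.Agent.Helper14.TL7
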