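import Pool.Agent.Helper14.TL7.StD

/-!
# Project TL (levels `4·7^n`): the finite certificates CEG, CEU, CEO
-/

set_option autoImplicit false
set_option maxRecDepth 1000000

namespace Pool.Agent.Helper14.TL7

open Pool.Agent.Helper4.S7 Pool.Agent.Helper84.S7

theorem hCeG : TCeG := by
  refine ⟨?_, ?_⟩
  · decide +kernel
  · decide +kernel

theorem hCeU : TCeU := by
  unfold TCeU
  decide +kernel

theorem hCeO : TCeO := by
  unfold TCeO
  decide +kernel

end Pool.Agent.Helper14.TL7
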